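import Mathlib

namespace Pool.Agent.H41.SP

open Module QuadraticMap

universe u

section defs

variable {F : Type*} [Field F] {V : Type*} [AddCommGroup V] [Module F V]

/-- `Q` is non-singular: its polar form has no radical (used in odd characteristic). -/
def NonSing (Q : QuadraticForm F V) : Prop :=
  ∀ x, (∀ y, QuadraticMap.polar Q x y = 0) → x = 0

/-- `S` is a spread of the quadric `Q = 0` with members of vector space dimension `d`: all members
are totally singular, and every singular point lies in exactly one member. -/
structure IsSpread (Q : QuadraticForm F V) (d : ℕ) (S : Set (Submodule F V)) : Prop where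
  tot : ∀ X ∈ S, ∀ x ∈ X, Q x = 0
  dim : ∀ X ∈ S, finrank F X = d
  cover : ∀ x, x ≠ 0 → Q x = 0 → ∃! X, X ∈ S ∧ x ∈ X

end defs

section linear

variable {F : Type*} [Field F] {V : Type*} [AddCommGroup V] [Module F V]
variable {Q : QuadraticForm F V}

lemma IsSpread.uniq {d : ℕ} {S : Set (Submodule F V)} (hS : IsSpread Q d S)
    {X Y : Submodule F V} (hX : X ∈ S) (hY : Y ∈ S) {x : V} (hx : x ≠ 0) (hxX : x ∈ X)
    (hxY : x ∈ Y) : X = Y :=
  (hS.cover x hx (hS.tot X hX x hxX)).unique ⟨hX, hxX⟩ ⟨hY, hxY⟩

lemma polar_eq_zero_of_ts {W : Submodule F V} (hW : ∀ x ∈ W, Q x = 0) {x y : V}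
    (hx : x ∈ W) (hy : y ∈ W) : polar Q x y = 0 := by
  unfold polar
  rw [hW _ (W.add_mem hx hy), hW _ hx, hW _ hy]; ring

lemma two_Q (x : V) : polar Q x x = 2 * Q x := by
  rw [polar_self]; simp [two_mul, two_smul]

/-- The polar form as a bilinear form. -/
noncomputable abbrev bf (Q : QuadraticForm F V) : LinearMap.BilinForm F V := QuadraticMap.polarBilin Q

lemma bf_apply (x y : V) : bf Q x y = polar Q x y := rfl

lemma bf_isRefl : (bf Q).IsRefl := by
  intro x y h
  rw [bf_apply] at *
  rw [polar_comm]; exact h

lemma bf_nondeg (hQ : NonSing Q) : (bf Q).Nondegenerate := by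
  constructor
  · intro x hx
    exact hQ x hx
  · intro x hx
    apply hQ x
    intro y
    rw [polar_comm]; exact hx y

variable [Module.Finite F V]

/-- totally singular subspaces have at most half the dimension -/
lemma ts_dim (hQ : NonSing Q) {W : Submodule F V} (hW : ∀ x ∈ W, Q x = 0) :
    2 * finrank F W ≤ finrank F V := by
  have h1 := LinearMap.BilinForm.finrank_orthogonal (bf_nondeg hQ) W
  have h2 : W ≤ (bf Q).orthogonal W := by
    intro x hx
    rw [LinearMap.BilinForm.mem_orthogonal_iff]
    intro y hy
    exact polar_eq_zero_of_ts hW hy hx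
  have h3 := Submodule.finrank_mono h2
  have h4 := Submodule.finrank_le W
  omega

/-- the orthogonal complement of a maximal totally singular subspace in even dimension -/
lemma orth_eq_of_ts (hQ : NonSing Q) {W : Submodule F V} (hW : ∀ x ∈ W, Q x = 0)
    (hd : finrank F V = 2 * finrank F W) : (bf Q).orthogonal W = W := by
  have h1 := LinearMap.BilinForm.finrank_orthogonal (bf_nondeg hQ) W
  have h2 : W ≤ (bf Q).orthogonal W := by
    intro x hx
    rw [LinearMap.BilinForm.mem_orthogonal_iff]
    intro y hy
    exact polar_eq_zero_of_ts hW hy hx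
  symm
  apply Submodule.eq_of_le_of_finrank_eq h2
  omega

/-- in odd dimension, vectors orthogonal to a maximal t.s. subspace but not in it are
nonsingular -/
lemma ne_zero_of_orth (hQ : NonSing Q) {W : Submodule F V} (hW : ∀ x ∈ W, Q x = 0)
    (hd : finrank F V = 2 * finrank F W + 1) {x : V} (hx : x ∈ (bf Q).orthogonal W)
    (hxW : x ∉ W) : Q x ≠ 0 := by
  intro h0
  have h5 : ∀ y ∈ W ⊔ Submodule.span F {x}, Q y = 0 := by
    intro y hy
    obtain ⟨w, hw, z, hz, rfl⟩ := Submodule.mem_sup.1 hy
    obtain ⟨c, rfl⟩ := Submodule.mem_span_singleton.1 hz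
    have e1 : polar Q w (c • x) = 0 := by
      rw [polar_smul_right]
      rw [LinearMap.BilinForm.mem_orthogonal_iff] at hx
      have := hx w hw
      have e2 : polar Q w x = 0 := this
      rw [e2, smul_zero]
    rw [QuadraticMap.map_add Q, e1, hW w hw, QuadraticMap.map_smul, h0]
    simp
  have h6 := ts_dim hQ h5
  have hx0 : x ≠ 0 := by
    rintro rfl; exact hxW W.zero_mem
  have h7 : W < W ⊔ Submodule.span F {x} := by
    rw [lt_iff_le_and_ne]
    refine ⟨le_sup_left, ?_⟩
    intro h
    apply hxW
    rw [h]
    exact Submodule.mem_sup_right (Submodule.mem_span_singleton_self x)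
  have h8 := Submodule.finrank_lt_finrank_of_lt h7
  omega

end linear

section count

variable {F : Type*} [Field F] [Finite F] {V : Type*} [AddCommGroup V] [Module F V]
variable {Q : QuadraticForm F V} [Module.Finite F V]

/-- The fibres of a nonzero linear functional. -/
lemma card_fiber {A : Type*} [AddCommGroup A] [Module F A] [Finite A] (φ : A →ₗ[F] F)
    (hφ : φ ≠ 0) (c : F) : Nat.card F * Nat.card {y : A // φ y = c} = Nat.card A := by
  classical
  have hsurj : Function.Surjective φ := LinearMap.surjective hφ
  have e : A ≃ Σ c : F, {y : A // φ y = c} := (Equiv.sigmaFiberEquiv φ).symm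
  have h1 : Nat.card A = ∑ᶠ c : F, Nat.card {y : A // φ y = c} := by
    have := Fintype.ofFinite F
    have := Fintype.ofFinite A
    rw [Nat.card_congr e, Nat.card_sigma, finsum_eq_sum_of_fintype]
  have h2 : ∀ c' : F, Nat.card {y : A // φ y = c'} = Nat.card {y : A // φ y = c} := by
    intro c'
    obtain ⟨a, ha⟩ := hsurj c
    obtain ⟨a', ha'⟩ := hsurj c'
    apply Nat.card_congr
    refine ⟨fun y => ⟨y.1 + (a - a'), by rw [map_add, map_sub, y.2, ha, ha']; ring⟩,
      fun y => ⟨y.1 - (a - a'), by rw [map_sub, map_sub, y.2, ha, ha']; ring⟩, ?_, ?_⟩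
    · intro y; ext; simp
    · intro y; ext; simp
  rw [h1]
  have := Fintype.ofFinite F
  rw [finsum_eq_sum_of_fintype]
  simp only [h2]
  rw [Finset.sum_const, Finset.card_univ, smul_eq_mul, Nat.card_eq_fintype_card]

lemma card_sub (A : Submodule F V) : Nat.card A = Nat.card F ^ finrank F A := by
  have := Module.finite_of_finite F (M := A)
  have := Fintype.ofFinite F
  have := Fintype.ofFinite A
  rw [Nat.card_eq_fintype_card, Nat.card_eq_fintype_card]
  exact Module.card_eq_pow_finrank

/-- the number of singular vectors in the coset `x + A` for `x` not orthogonal to `A` -/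
lemma card_coset {A : Submodule F V} (hA : ∀ x ∈ A, Q x = 0) {x : V}
    (hx : x ∉ (bf Q).orthogonal A) :
    Nat.card F * Nat.card {y : A // Q (x + y) = 0} = Nat.card A := by
  have : Finite A := Module.finite_of_finite F (M := A)
  let φ : A →ₗ[F] F := ((bf Q) x).comp A.subtype
  have hφ : φ ≠ 0 := by
    intro h0
    apply hx
    rw [LinearMap.BilinForm.mem_orthogonal_iff]
    intro y hy
    have h1 : φ ⟨y, hy⟩ = 0 := by rw [h0]; rfl
    have h2 : polar Q x y = 0 := h1
    show polar Q y x = 0
    rw [polar_comm]; exact h2
  have h := card_fiber φ hφ (- Q x)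
  rw [← h]
  congr 1
  apply Nat.card_congr
  apply Equiv.subtypeEquivRight
  intro y
  have e : Q (x + y) = Q x + φ y := by
    rw [QuadraticMap.map_add Q, hA _ y.2]
    show _ = Q x + polar Q x y
    ring
  rw [e]
  constructor
  · intro h; linear_combination h
  · intro h; rw [h]; ring

/-- double counting of the pairs (x, y), y in A, x + y singular -/
lemma card_pairs (A : Submodule F V) :
    ∑ᶠ x : V, Nat.card {y : A // Q (x + y) = 0} = Nat.card A * Nat.card {x : V // Q x = 0} := by
  classical
  have hV : Finite V := Module.finite_of_finite F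
  have : Finite A := Module.finite_of_finite F (M := A)
  have := Fintype.ofFinite V
  have := Fintype.ofFinite A
  rw [finsum_eq_sum_of_fintype]
  have h1 : ∀ x : V, Nat.card {y : A // Q (x + y) = 0} = ∑ y : A, if Q (x + y) = 0 then 1 else 0 := by
    intro x
    rw [Nat.card_eq_fintype_card, Fintype.card_subtype, Finset.card_filter]
  have h2 : Nat.card {x : V // Q x = 0} = ∑ x : V, if Q x = 0 then 1 else 0 := by
    rw [Nat.card_eq_fintype_card, Fintype.card_subtype, Finset.card_filter]
  simp only [h1]
  rw [Finset.sum_comm]
  have h3 : ∀ y : A, (∑ x : V, if Q (x + y) = 0 then 1 else 0) = Nat.card {x : V // Q x = 0} := by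
    intro y
    rw [h2]
    exact Fintype.sum_equiv (Equiv.addRight (y : V)) _ _ (fun x => rfl)
  simp only [h3]
  rw [Finset.sum_const, Finset.card_univ, smul_eq_mul]
  simp only [Nat.card_eq_fintype_card]

/-- number of singular vectors, even dimension with a maximal totally singular subspace -/
lemma count_even (hQ : NonSing Q) {A : Submodule F V} (hA : ∀ x ∈ A, Q x = 0) {a : ℕ}
    (ha : finrank F A = a) (hd : finrank F V = 2 * a) :
    Nat.card F * Nat.card {x : V // Q x = 0} + Nat.card F ^ a =
      Nat.card F ^ (a + 1) + Nat.card F ^ (2 * a) := by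
  classical
  have hV : Finite V := Module.finite_of_finite F
  have : Finite A := Module.finite_of_finite F (M := A)
  have := Fintype.ofFinite V
  have := Fintype.ofFinite F
  have := Fintype.ofFinite A
  have horth := orth_eq_of_ts hQ hA (by rw [ha]; exact hd)
  have hcA : Nat.card A = Nat.card F ^ a := by rw [card_sub, ha]
  have hcV : Nat.card V = Nat.card F ^ (2 * a) := by
    rw [Nat.card_eq_fintype_card, Nat.card_eq_fintype_card, ← hd]
    exact Module.card_eq_pow_finrank
  have hq : 0 < Nat.card F := Nat.card_pos
  have h := card_pairs (Q := Q) A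
  rw [finsum_eq_sum_of_fintype] at h
  -- evaluate q * LHS
  have h1 : ∀ x : V, Nat.card F * Nat.card {y : A // Q (x + y) = 0} =
      if x ∈ A then Nat.card F * Nat.card A else Nat.card A := by
    intro x
    by_cases hx : x ∈ A
    · rw [if_pos hx]
      congr 1
      have : ∀ y : A, Q (x + y) = 0 := fun y => hA _ (A.add_mem hx y.2)
      exact Nat.card_congr (Equiv.subtypeUnivEquiv this)
    · rw [if_neg hx]
      exact card_coset hA (by rw [horth]; exact hx)
  have h2 : Nat.card F * (Nat.card A * Nat.card {x : V // Q x = 0}) =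
      Nat.card A * (Nat.card F * Nat.card A) + (Nat.card V - Nat.card A) * Nat.card A := by
    rw [← h, Finset.mul_sum]
    simp only [h1]
    rw [Finset.sum_ite, Finset.sum_const, Finset.sum_const, smul_eq_mul, smul_eq_mul]
    have e1 : (Finset.univ.filter (fun x : V => x ∈ A)).card = Nat.card A := by
      rw [Nat.card_eq_fintype_card, Fintype.card_subtype]
    have e2 : (Finset.univ.filter (fun x : V => x ∉ A)).card = Nat.card V - Nat.card A := by
      rw [Finset.filter_not, Finset.card_sdiff_of_subset (Finset.filter_subset _ _), e1,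
        Finset.card_univ]
      simp only [Nat.card_eq_fintype_card]
    rw [e1, e2]
  have hle : Nat.card A ≤ Nat.card V := by
    rw [hcA, hcV]; exact Nat.pow_le_pow_right hq (by omega)
  have hA0 : 0 < Nat.card A := Nat.card_pos
  have h3 : Nat.card F * Nat.card {x : V // Q x = 0} =
      Nat.card F * Nat.card A + (Nat.card V - Nat.card A) := by
    apply Nat.eq_of_mul_eq_mul_left hA0
    rw [mul_add, mul_comm (Nat.card A) (Nat.card V - Nat.card A), ← h2]
    ring
  rw [h3, pow_succ, hcA, hcV] at *
  have : Nat.card F * Nat.card F ^ a = Nat.card F ^ a * Nat.card F := by ring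
  omega

/-- number of singular vectors, odd dimension with a maximal totally singular subspace -/
lemma count_odd (hQ : NonSing Q) {A : Submodule F V} (hA : ∀ x ∈ A, Q x = 0) {a : ℕ}
    (ha : finrank F A = a) (hd : finrank F V = 2 * a + 1) :
    Nat.card {x : V // Q x = 0} = Nat.card F ^ (2 * a) := by
  classical
  have hV : Finite V := Module.finite_of_finite F
  have : Finite A := Module.finite_of_finite F (M := A)
  have := Fintype.ofFinite V
  have := Fintype.ofFinite F
  have := Fintype.ofFinite A
  set B : Submodule F V := (bf Q).orthogonal A with hB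
  have : Finite B := Module.finite_of_finite F (M := B)
  have := Fintype.ofFinite B
  have hAB : A ≤ B := by
    intro x hx
    rw [hB, LinearMap.BilinForm.mem_orthogonal_iff]
    intro y hy
    exact polar_eq_zero_of_ts hA hy hx
  have hfB : finrank F B = a + 1 := by
    have := LinearMap.BilinForm.finrank_orthogonal (bf_nondeg hQ) A
    rw [← hB] at this
    omega
  have hcA : Nat.card A = Nat.card F ^ a := by rw [card_sub, ha]
  have hcB : Nat.card B = Nat.card F ^ (a + 1) := by rw [card_sub, hfB]
  have hcV : Nat.card V = Nat.card F ^ (2 * a + 1) := by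
    rw [Nat.card_eq_fintype_card, Nat.card_eq_fintype_card, ← hd]
    exact Module.card_eq_pow_finrank
  have hq : 0 < Nat.card F := Nat.card_pos
  have h := card_pairs (Q := Q) A
  rw [finsum_eq_sum_of_fintype] at h
  have h1 : ∀ x : V, Nat.card F * Nat.card {y : A // Q (x + y) = 0} =
      (if x ∈ A then Nat.card F * Nat.card A else 0) + (if x ∉ B then Nat.card A else 0) := by
    intro x
    by_cases hx : x ∈ A
    · rw [if_pos hx, if_neg (by simpa using hAB hx), add_zero]
      congr 1
      have : ∀ y : A, Q (x + y) = 0 := fun y => hA _ (A.add_mem hx y.2)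
      exact Nat.card_congr (Equiv.subtypeUnivEquiv this)
    · rw [if_neg hx, zero_add]
      by_cases hx2 : x ∈ B
      · rw [if_neg (by simpa using hx2)]
        have h0 : Q x ≠ 0 := ne_zero_of_orth hQ hA (by rw [ha]; exact hd) hx2 hx
        have : IsEmpty {y : A // Q (x + y) = 0} := by
          constructor
          rintro ⟨y, hy⟩
          apply h0
          have e1 : polar Q x y = 0 := by
            rw [polar_comm]
            rw [hB, LinearMap.BilinForm.mem_orthogonal_iff] at hx2
            exact hx2 y y.2
          rw [QuadraticMap.map_add Q, e1, hA _ y.2] at hy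
          simpa using hy
        have e0 : Nat.card {y : A // Q (x + y) = 0} = 0 := Nat.card_of_isEmpty
        rw [e0, mul_zero]
      · rw [if_pos hx2]
        exact card_coset hA hx2
  have h2 : Nat.card F * (Nat.card A * Nat.card {x : V // Q x = 0}) =
      Nat.card A * (Nat.card F * Nat.card A) + (Nat.card V - Nat.card B) * Nat.card A := by
    rw [← h, Finset.mul_sum]
    simp only [h1]
    rw [Finset.sum_add_distrib, ← Finset.sum_filter, ← Finset.sum_filter, Finset.sum_const,
      Finset.sum_const, smul_eq_mul, smul_eq_mul]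
    have e1 : (Finset.univ.filter (fun x : V => x ∈ A)).card = Nat.card A := by
      rw [Nat.card_eq_fintype_card, Fintype.card_subtype]
    have e1' : (Finset.univ.filter (fun x : V => x ∈ B)).card = Nat.card B := by
      rw [Nat.card_eq_fintype_card, Fintype.card_subtype]
    have e2 : (Finset.univ.filter (fun x : V => x ∉ B)).card = Nat.card V - Nat.card B := by
      rw [Finset.filter_not, Finset.card_sdiff_of_subset (Finset.filter_subset _ _), e1',
        Finset.card_univ]
      simp only [Nat.card_eq_fintype_card]
    rw [e1, e2]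
  have hle : Nat.card B ≤ Nat.card V := by
    rw [hcB, hcV]; exact Nat.pow_le_pow_right hq (by omega)
  have hA0 : 0 < Nat.card A := Nat.card_pos
  have h3 : Nat.card F * Nat.card {x : V // Q x = 0} =
      Nat.card F * Nat.card A + (Nat.card V - Nat.card B) := by
    apply Nat.eq_of_mul_eq_mul_left hA0
    rw [mul_add, mul_comm (Nat.card A) (Nat.card V - Nat.card B), ← h2]
    ring
  have h4 : Nat.card F * Nat.card A = Nat.card B := by
    rw [hcA, hcB, pow_succ]; ring
  have h5 : Nat.card F * Nat.card {x : V // Q x = 0} = Nat.card V := by omega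
  apply Nat.eq_of_mul_eq_mul_left hq
  rw [h5, hcV, pow_succ]; ring

end count

end Pool.Agent.H41.SP
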