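import Pool.Agent.H41.SP.Basic

namespace Pool.Agent.H41.SP

open Module QuadraticMap

lemma tern {K : Type*} [Field K] [Finite K] (h2 : (2 : K) ≠ 0) {b1 b2 : K} (h1 : b1 ≠ 0)
    (hb2 : b2 ≠ 0) : ∃ x y : K, b1 * x ^ 2 + b2 * y ^ 2 + 1 = 0 := by
  classical
  have := Fintype.ofFinite K
  have hchar : ringChar K ≠ 2 := by
    intro h
    apply h2
    have := ringChar.Nat.cast_ringChar (R := K)
    rw [h] at this
    exact_mod_cast this
  have hodd := FiniteField.odd_card_of_char_ne_two hchar
  have hf : (Polynomial.C b1 * Polynomial.X ^ 2).degree = 2 := by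
    rw [Polynomial.degree_C_mul_X_pow 2 h1]; rfl
  have hg : (Polynomial.C b2 * Polynomial.X ^ 2 + Polynomial.C 1).degree = 2 := by
    rw [Polynomial.degree_add_eq_left_of_degree_lt]
    · rw [Polynomial.degree_C_mul_X_pow 2 hb2]; rfl
    · rw [Polynomial.degree_C_mul_X_pow 2 hb2, Polynomial.degree_C one_ne_zero]
      norm_num
  obtain ⟨x, y, h⟩ := FiniteField.exists_root_sum_quadratic hf hg hodd
  refine ⟨x, y, ?_⟩
  simp at h
  linear_combination h

section

variable {F : Type*} [Field F] {V : Type*} [AddCommGroup V] [Module F V]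

lemma iter_smul (T : V ≃+ V) (τ : F ≃+* F) (hT : ∀ (c : F) x, T (c • x) = τ c • T x) (i : ℕ)
    (c : F) (x : V) : T^[i] (c • x) = (τ^[i] c) • T^[i] x := by
  induction i with
  | zero => rfl
  | succ i ih => rw [Function.iterate_succ_apply', ih, hT, Function.iterate_succ_apply',
      Function.iterate_succ_apply']

lemma iter_add (T : V ≃+ V) (i : ℕ) (x y : V) : T^[i] (x + y) = T^[i] x + T^[i] y := by
  induction i with
  | zero => rfl
  | succ i ih => rw [Function.iterate_succ_apply', ih, map_add, Function.iterate_succ_apply',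
      Function.iterate_succ_apply']

/-- the fixed vectors of a semilinear map of order `r` span the space -/
lemma span_fixed (T : V ≃+ V) (τ : F ≃+* F) (hT : ∀ (c : F) x, T (c • x) = τ c • T x) (r : ℕ)
    (hr : 0 < r) (hTr : ∀ x, T^[r] x = x)
    (hdist : ∀ i j, i < r → j < r → (∀ c, τ^[i] c = τ^[j] c) → i = j)
    (W : Submodule F V) (hW : ∀ x, T x = x → x ∈ W) : W = ⊤ := by
  classical
  by_contra hne
  obtain ⟨ψ, hψ, hle⟩ := Submodule.exists_le_ker_of_lt_top W (lt_top_iff_ne_top.2 hne)
  have : ∃ v, ψ v ≠ 0 := by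
    by_contra h
    push Not at h
    exact hψ (LinearMap.ext h)
  obtain ⟨v, hv⟩ := this
  apply hv
  -- trace
  have htr : ∀ c : F, ∑ i ∈ Finset.range r, (τ^[i] c) * ψ (T^[i] v) = 0 := by
    intro c
    have hfix : T (∑ i ∈ Finset.range r, T^[i] (c • v)) = ∑ i ∈ Finset.range r, T^[i] (c • v) := by
      rw [map_sum]
      have e1 : ∀ i, T (T^[i] (c • v)) = T^[i + 1] (c • v) := fun i => by
        rw [Function.iterate_succ_apply']
      simp only [e1]
      have h1 := Finset.sum_range_succ (fun i => T^[i] (c • v)) r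
      have h2 := Finset.sum_range_succ' (fun i => T^[i] (c • v)) r
      rw [h2] at h1
      simp only [Function.iterate_zero, id_eq, hTr] at h1
      exact add_right_cancel h1
    have h1 := hle (hW _ hfix)
    rw [LinearMap.mem_ker, map_sum] at h1
    rw [← h1]
    apply Finset.sum_congr rfl
    intro i _
    rw [iter_smul T τ hT, map_smul, smul_eq_mul]
  -- Dedekind
  let ch : Fin r → (F →* F) := fun i => ((τ ^ (i : ℕ) : F ≃+* F) : F →* F)
  have hpow : ∀ (i : ℕ) (c : F), (τ ^ i : F ≃+* F) c = τ^[i] c := by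
    intro i
    induction i with
    | zero => intro c; rfl
    | succ i ih => intro c; rw [pow_succ', Function.iterate_succ_apply', ← ih]; rfl
  have hch : Function.Injective ch := by
    intro i j hij
    ext
    apply hdist i j i.2 j.2
    intro c
    have := DFunLike.congr_fun hij c
    rw [← hpow, ← hpow]
    exact this
  have hli := (linearIndependent_monoidHom F F).comp ch hch
  rw [Fintype.linearIndependent_iff] at hli
  have h0 := hli (fun i => ψ (T^[i] v)) (by
    ext c
    rw [Finset.sum_apply]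
    simp only [Function.comp_apply, Pi.smul_apply, smul_eq_mul, Pi.zero_apply]
    rw [← htr c, Finset.sum_range]
    apply Finset.sum_congr rfl
    intro i _
    rw [← hpow, mul_comm]
    rfl) ⟨0, hr⟩
  simpa using h0

variable {Q : QuadraticForm F V}

lemma polar_semi (T : V ≃+ V) (τ : F ≃+* F) (μ : F) (hμ : ∀ x, Q (T x) = μ * τ (Q x)) (x y : V) :
    polar Q (T x) (T y) = μ * τ (polar Q x y) := by
  unfold polar
  rw [← map_add, hμ, hμ, hμ, map_sub, map_sub]
  ring

variable [Finite F] [Module.Finite F V]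

/-- A semisimilarity of order `r` modulo nothing, with field automorphism of order `r`, has a
nonzero fixed singular vector. -/
lemma fixed_singular (h2 : (2 : F) ≠ 0) (T : V ≃+ V) (τ : F ≃+* F)
    (hT : ∀ (c : F) x, T (c • x) = τ c • T x) (μ : F) (hμ : ∀ x, Q (T x) = μ * τ (Q x)) (r : ℕ)
    (hr : 0 < r) (hTr : ∀ x, T^[r] x = x)
    (hdist : ∀ i j, i < r → j < r → (∀ c, τ^[i] c = τ^[j] c) → i = j)
    (hdim : 3 ≤ finrank F V) : ∃ x, x ≠ 0 ∧ T x = x ∧ Q x = 0 := by
  classical
  by_contra hcon
  push Not at hcon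
  have hspan := span_fixed T τ hT r hr hTr hdist
  have hnot : ∀ W : Submodule F V, finrank F W < 3 → ∃ x, T x = x ∧ x ∉ W := by
    intro W hW
    by_contra h
    push Not at h
    have h1 := hspan W h
    rw [h1, finrank_top] at hW
    omega
  have hratio : ∀ e x : V, T e = e → T x = x → Q e ≠ 0 →
      τ (polar Q e x / polar Q e e) = polar Q e x / polar Q e e := by
    intro e x he hx hQe
    have h1 := polar_semi T τ μ hμ e x
    have h3 := polar_semi T τ μ hμ e e
    rw [he, hx] at h1
    rw [he] at h3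
    have h4 : polar Q e e ≠ 0 := by
      rw [two_Q]; exact mul_ne_zero h2 hQe
    have hμ0 : μ ≠ 0 := by
      rintro rfl
      apply h4; rw [h3]; ring
    have h5 : τ (polar Q e e) ≠ 0 := by
      rw [ne_eq, map_eq_zero]; exact h4
    rw [map_div₀, div_eq_div_iff h5 h4]
    apply mul_left_cancel₀ hμ0
    calc μ * (τ (polar Q e x) * polar Q e e) = (μ * τ (polar Q e x)) * polar Q e e := by ring
      _ = polar Q e x * (μ * τ (polar Q e e)) := by rw [← h1, ← h3]
      _ = _ := by ring
  -- e1
  obtain ⟨e1, he1, hne1⟩ := hnot ⊥ (by rw [finrank_bot]; omega)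
  rw [Submodule.mem_bot] at hne1
  have hQ1 := hcon e1 hne1 he1
  have hp1 : polar Q e1 e1 ≠ 0 := by rw [two_Q]; exact mul_ne_zero h2 hQ1
  -- e2
  obtain ⟨x2, hx2, hnx2⟩ := hnot (Submodule.span F {e1}) (by
    have := finrank_span_le_card (R := F) (M := V) ({e1} : Set V)
    simp at this
    omega)
  set r12 := polar Q e1 x2 / polar Q e1 e1 with hr12
  set e2 := x2 - r12 • e1 with he2def
  have he2 : T e2 = e2 := by
    rw [he2def, map_sub, hT, hx2, he1, hratio e1 x2 he1 hx2 hQ1]
  have hne2 : e2 ≠ 0 := by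
    intro h
    apply hnx2
    rw [Submodule.mem_span_singleton]
    exact ⟨r12, by rw [he2def, sub_eq_zero] at h; exact h.symm⟩
  have hort12 : polar Q e1 e2 = 0 := by
    rw [he2def, polar_sub_right, polar_smul_right, hr12, smul_eq_mul]
    field_simp
    ring
  have hQ2 := hcon e2 hne2 he2
  have hp2 : polar Q e2 e2 ≠ 0 := by rw [two_Q]; exact mul_ne_zero h2 hQ2
  -- e3
  obtain ⟨x3, hx3, hnx3⟩ := hnot (Submodule.span F {e1, e2}) (by
    have := finrank_span_le_card (R := F) (M := V) ({e1, e2} : Set V)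
    have h3 : ({e1, e2} : Set V).toFinset.card ≤ 2 := by
      rw [Set.toFinset_insert, Set.toFinset_singleton]
      exact Finset.card_le_two
    omega)
  set r13 := polar Q e1 x3 / polar Q e1 e1 with hr13
  set r23 := polar Q e2 x3 / polar Q e2 e2 with hr23
  set e3 := x3 - r13 • e1 - r23 • e2 with he3def
  have he3 : T e3 = e3 := by
    rw [he3def, map_sub, map_sub, hT, hT, hx3, he1, he2, hratio e1 x3 he1 hx3 hQ1,
      hratio e2 x3 he2 hx3 hQ2]
  have hne3 : e3 ≠ 0 := by
    intro h
    apply hnx3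
    rw [he3def, sub_sub, sub_eq_zero] at h
    rw [h, Submodule.mem_span_pair]
    exact ⟨r13, r23, rfl⟩
  have hort13 : polar Q e1 e3 = 0 := by
    rw [he3def, polar_sub_right, polar_sub_right, polar_smul_right, polar_smul_right, hort12, hr13,
      smul_eq_mul, smul_eq_mul]
    field_simp
    ring
  have hort21 : polar Q e2 e1 = 0 := by rw [polar_comm]; exact hort12
  have hort23 : polar Q e2 e3 = 0 := by
    rw [he3def, polar_sub_right, polar_sub_right, polar_smul_right, polar_smul_right, hort21, hr23,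
      smul_eq_mul, smul_eq_mul]
    field_simp
    ring
  have hQ3 := hcon e3 hne3 he3
  -- rational scalars
  let K0 : Subfield F := RingHom.eqLocusField (τ : F →+* F) (RingHom.id F)
  have hK0 : ∀ c : F, c ∈ K0 ↔ τ c = c := fun c => Iff.rfl
  have hrat : ∀ e e' : V, T e = e → T e' = e' → Q e' ≠ 0 → Q e / Q e' ∈ K0 := by
    intro e e' he he' hQe'
    rw [hK0]
    have h1 := hμ e
    have h3 := hμ e'
    rw [he] at h1
    rw [he'] at h3
    have hμ0 : μ ≠ 0 := by
      rintro rfl
      apply hQe'; rw [h3]; ring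
    have h5 : τ (Q e') ≠ 0 := by
      rw [ne_eq, map_eq_zero]; exact hQe'
    rw [map_div₀, div_eq_div_iff h5 hQe']
    apply mul_left_cancel₀ hμ0
    calc μ * (τ (Q e) * Q e') = (μ * τ (Q e)) * Q e' := by ring
      _ = Q e * (μ * τ (Q e')) := by rw [← h1, ← h3]
      _ = _ := by ring
  have hm1 := hrat e1 e3 he1 he3 hQ3
  have hm2 := hrat e2 e3 he2 he3 hQ3
  have h2K : (2 : K0) ≠ 0 := by
    intro h
    apply h2
    have h3 : ((2 : K0) : F) = ((0 : K0) : F) := congrArg (Subtype.val) h
    exact h3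
  obtain ⟨x, y, hxy⟩ := tern (K := K0) h2K (b1 := ⟨_, hm1⟩) (b2 := ⟨_, hm2⟩)
    (by intro h; have := congrArg Subtype.val h; simp [hQ1, hQ3] at this)
    (by intro h; have := congrArg Subtype.val h; simp [hQ2, hQ3] at this)
  have hxy' : (Q e1 / Q e3) * (x : F) ^ 2 + (Q e2 / Q e3) * (y : F) ^ 2 + 1 = 0 := by
    have := congrArg Subtype.val hxy
    simpa using this
  have hxy2 : Q e1 * (x : F) ^ 2 + Q e2 * (y : F) ^ 2 + Q e3 = 0 := by
    field_simp at hxy'
    linear_combination hxy'
  have hx : τ (x : F) = x := x.2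
  have hy : τ (y : F) = y := y.2
  set v := (x : F) • e1 + (y : F) • e2 + e3 with hv
  have hfixv : T v = v := by
    rw [hv, map_add, map_add, hT, hT, hx, hy, he1, he2, he3]
  have hQv : Q v = 0 := by
    have g1 : polar Q ((x : F) • e1) ((y : F) • e2) = 0 := by
      rw [polar_smul_left, polar_smul_right, hort12]; simp
    have g2 : polar Q ((x : F) • e1 + (y : F) • e2) e3 = 0 := by
      rw [polar_add_left, polar_smul_left, polar_smul_left, hort13, hort23]; simp
    rw [hv, QuadraticMap.map_add Q, g2, QuadraticMap.map_add Q, g1, QuadraticMap.map_smul,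
      QuadraticMap.map_smul]
    simp only [smul_eq_mul]
    linear_combination hxy2
  have hvne : v ≠ 0 := by
    intro h
    have h1 : polar Q e3 v = 0 := by rw [h, polar_zero_right]
    have hort31 : polar Q e3 e1 = 0 := by rw [polar_comm]; exact hort13
    have hort32 : polar Q e3 e2 = 0 := by rw [polar_comm]; exact hort23
    rw [hv, polar_add_right, polar_add_right, polar_smul_right, polar_smul_right, hort31, hort32,
      two_Q] at h1
    simp only [smul_zero, zero_add] at h1
    exact mul_ne_zero h2 hQ3 h1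
  exact hcon v hvne hfixv hQv

/-- isotropy in dimension at least three -/
lemma exists_singular (h2 : (2 : F) ≠ 0) (Q : QuadraticForm F V) (hdim : 3 ≤ finrank F V) :
    ∃ x, x ≠ 0 ∧ Q x = 0 := by
  obtain ⟨x, h1, _, h3⟩ := fixed_singular (Q := Q) h2 (AddEquiv.refl V) (RingEquiv.refl F)
    (fun c x => rfl) 1 (fun x => by simp) 1 one_pos (fun x => rfl)
    (fun i j hi hj _ => by omega) hdim
  exact ⟨x, h1, h3⟩

end

end Pool.Agent.H41.SP
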