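import Pool.Agent.H41.SP.Inv

namespace Pool.Agent.H41.SP

open Module QuadraticMap

section field

variable {F : Type*} [Field F] [Finite F]

instance finite_ringAut : Finite (RingAut F) :=
  Finite.of_injective (fun σ : RingAut F => (σ : F → F)) DFunLike.coe_injective

instance isCyclic_ringAut : IsCyclic (RingAut F) := by
  obtain ⟨p, hp⟩ := CharP.exists F
  have : Fact p.Prime := ⟨CharP.char_is_prime F p⟩
  let _ : Algebra (ZMod p) F := ZMod.algebra F p
  let f : Gal(F/ZMod p) →* RingAut F :=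
    { toFun := fun g => g.toRingEquiv
      map_one' := rfl
      map_mul' := fun _ _ => rfl }
  have hf : Function.Surjective f := by
    intro g
    refine ⟨AlgEquiv.ofRingEquiv (f := g) ?_, ?_⟩
    · intro r
      have : (g.toRingHom.comp (algebraMap (ZMod p) F)) = algebraMap (ZMod p) F :=
        Subsingleton.elim _ _
      exact RingHom.congr_fun this r
    · rfl
  exact isCyclic_of_surjective f hf

/-- surjectivity of the norm onto the fixed field of an automorphism -/
lemma exists_norm (τ : RingAut F) (l : F) (hl : τ l = l) :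
    ∃ a : F, ∏ i ∈ Finset.range (orderOf τ), (τ ^ i) a = l := by
  classical
  let G : Subgroup (RingAut F) := Subgroup.zpowers τ
  have hG : G ≤ MulAction.stabilizer (RingAut F) l := by
    rw [Subgroup.zpowers_le, MulAction.mem_stabilizer_iff]
    exact hl
  have hmem : ∀ g : G, g • l = l := by
    intro g
    exact MulAction.mem_stabilizer_iff.1 (hG g.2)
  let K1 := FixedPoints.subfield G F
  have := Fintype.ofFinite G
  obtain ⟨x, hx⟩ := FiniteField.norm_surjective K1 F ⟨l, hmem⟩
  refine ⟨x, ?_⟩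
  have h1 := Algebra.norm_eq_prod_automorphisms K1 x
  rw [hx] at h1
  have h3 : (algebraMap K1 F) ⟨l, hmem⟩ = l := rfl
  rw [h3] at h1
  rw [h1]
  have e1 : ∏ σ : Gal(F/K1), σ x = ∏ g : G, (g : RingAut F) x := by
    rw [← Fintype.prod_equiv (FixedPoints.toAlgAutMulEquiv G F).toEquiv
      (fun g : G => (g : RingAut F) x) (fun σ => σ x) (fun g => rfl)]
  rw [e1, Finset.prod_range]
  exact Fintype.prod_equiv (finEquivZPowers (isOfFinOrder_of_finite τ)) _ _ (fun i => rfl)

end field

section defs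

variable {F : Type*} [Field F] {V : Type*} [AddCommGroup V] [Module F V]

/-- `g` is a semisimilarity of `(V, Q)`: semilinear, and it maps `Q` to `μ σ(Q)`. -/
def IsSemiSim (Q : QuadraticForm F V) (g : V ≃+ V) : Prop :=
  ∃ (σ : F ≃+* F) (μ : F), μ ≠ 0 ∧ (∀ (c : F) (x : V), g (c • x) = σ c • g x) ∧
    ∀ x, Q (g x) = μ * σ (Q x)

/-- `g` maps every member of `S` to a member of `S`. -/
def Preserves (S : Set (Submodule F V)) (g : V ≃+ V) : Prop :=
  ∀ X ∈ S, ∃ Y ∈ S, ∀ x, x ∈ X ↔ g x ∈ Y

/-- `g` fixes the subspace `X`. -/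
def Fixes (g : V ≃+ V) (X : Submodule F V) : Prop := ∀ x, x ∈ X ↔ g x ∈ X

variable {Q : QuadraticForm F V}

lemma fix_of_vec {d : ℕ} {S : Set (Submodule F V)} (hS : IsSpread Q d S) {g : V ≃+ V}
    (hg : Preserves S g) {X : Submodule F V} (hX : X ∈ S) {x : V} (hx : x ∈ X) (hx0 : x ≠ 0)
    (hgx : g x ∈ X) : Fixes g X := by
  obtain ⟨Y, hY, h⟩ := hg X hX
  have h1 : g x ∈ Y := (h x).1 hx
  have h3 : g x ≠ 0 := by
    intro h0
    apply hx0
    apply g.injective
    rw [h0, map_zero]
  have h4 := hS.uniq hY hX h3 h1 hgx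
  rw [h4] at h
  exact h

end defs

section semilinear

variable {F : Type*} [Field F] [Finite F] {V : Type*} [AddCommGroup V] [Module F V]
variable {Q : QuadraticForm F V} [Module.Finite F V]

/-- A semisimilarity some power of which (the order of its field automorphism) is a scalar fixes
a singular point. -/
lemma exists_eigen (h2 : (2 : F) ≠ 0) (T : V ≃+ V) (τ : RingAut F)
    (hT : ∀ (c : F) (x : V), T (c • x) = τ c • T x) (μ : F) (hμ : ∀ x, Q (T x) = μ * τ (Q x))
    (l : F) (hTr : ∀ x, T^[orderOf τ] x = l • x) (hdim : 3 ≤ finrank F V) :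
    ∃ x, x ≠ 0 ∧ (∃ c : F, T x = c • x) ∧ Q x = 0 := by
  classical
  have hnt : Nontrivial V := by
    apply Module.nontrivial_of_finrank_pos (R := F); omega
  obtain ⟨v, hv⟩ := exists_ne (0 : V)
  have hl0 : l ≠ 0 := by
    rintro rfl
    have h1 := hTr v
    rw [zero_smul] at h1
    have h3 : T^[orderOf τ] v = T^[orderOf τ] 0 := by
      rw [h1]
      have : ∀ i, T^[i] (0 : V) = 0 := by
        intro i
        induction i with
        | zero => rfl
        | succ i ih => rw [Function.iterate_succ_apply', ih, map_zero]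
      rw [this]
    exact hv (T.injective.iterate _ h3)
  have hτl : τ l = l := by
    have h1 : T (T^[orderOf τ] v) = T^[orderOf τ] (T v) := by
      exact (Function.iterate_succ_apply' T (orderOf τ) v).symm.trans
        (Function.iterate_succ_apply T (orderOf τ) v)
    rw [hTr, hTr, hT] at h1
    have h3 : (τ l - l) • T v = 0 := by rw [sub_smul, h1, sub_self]
    rcases smul_eq_zero.1 h3 with h4 | h4
    · exact sub_eq_zero.1 h4
    · exfalso; apply hv; apply T.injective; rw [h4, map_zero]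
  obtain ⟨a, ha⟩ := exists_norm τ l⁻¹ (by rw [map_inv₀, hτl])
  have ha0 : a ≠ 0 := by
    rintro rfl
    have : l⁻¹ = 0 := by
      rw [← ha]
      apply Finset.prod_eq_zero (i := 0)
      · rw [Finset.mem_range]; exact orderOf_pos τ
      · simp
    exact hl0 (inv_eq_zero.1 this)
  let T' : V ≃+ V := T.trans (LinearEquiv.smulOfNeZero F V a ha0).toAddEquiv
  have hT' : ∀ x, T' x = a • T x := fun x => rfl
  have hpow : ∀ (i : ℕ) (c : F), (τ ^ i) c = τ^[i] c := by
    intro i
    induction i with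
    | zero => intro c; rfl
    | succ i ih => intro c; rw [pow_succ', Function.iterate_succ_apply', ← ih]; rfl
  have hiter : ∀ (i : ℕ) (x : V), T'^[i] x = (∏ j ∈ Finset.range i, (τ ^ j) a) • T^[i] x := by
    intro i
    induction i with
    | zero => intro x; simp
    | succ i ih =>
      intro x
      have e1 : τ (∏ j ∈ Finset.range i, (τ ^ j) a) = ∏ j ∈ Finset.range i, (τ ^ (j + 1)) a := by
        rw [map_prod]
        apply Finset.prod_congr rfl
        intro j _
        rw [pow_succ']; rfl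
      rw [Function.iterate_succ_apply', ih, hT', hT, smul_smul, Function.iterate_succ_apply',
        Finset.prod_range_succ', e1, mul_comm]
      rfl
  obtain ⟨x, hx0, hx, hQx⟩ := fixed_singular (Q := Q) h2 T' τ
    (fun c x => by rw [hT', hT', hT, smul_smul, smul_smul, mul_comm]) (a * a * μ)
    (fun x => by rw [hT', QuadraticMap.map_smul, hμ, smul_eq_mul]; ring) (orderOf τ) (orderOf_pos τ)
    (fun x => by rw [hiter, ha, hTr, smul_smul, inv_mul_cancel₀ hl0, one_smul])
    (fun i j hi hj hij => by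
      apply pow_injOn_Iio_orderOf (x := τ) hi hj
      apply RingEquiv.ext
      intro c
      show (τ ^ i) c = (τ ^ j) c
      rw [hpow, hpow]
      exact hij c) hdim
  refine ⟨x, hx0, ⟨a⁻¹, ?_⟩, hQx⟩
  rw [hT'] at hx
  rw [eq_inv_smul_iff₀ ha0]
  exact hx

end semilinear

section pgroup

lemma exists_central_invol {P : Type*} [Group P] [Finite P] (hP : IsPGroup 2 P)
    (Z N : Subgroup P) [Z.Normal] [N.Normal] (hZN : Z ≤ N) (hne : Z ≠ N) :
    ∃ t ∈ N, t ∉ Z ∧ t * t ∈ Z ∧ ∀ h, h * t * h⁻¹ * t⁻¹ ∈ Z := by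
  classical
  have hfact : Fact (Nat.Prime 2) := ⟨Nat.prime_two⟩
  let π := QuotientGroup.mk' Z
  have hπ : Function.Surjective π := QuotientGroup.mk'_surjective Z
  let N' : Subgroup (P ⧸ Z) := N.map π
  have hN' : N'.Normal := Subgroup.Normal.map inferInstance π hπ
  have hPq : IsPGroup 2 (P ⧸ Z) := hP.to_quotient Z
  have hPc : IsPGroup 2 (ConjAct (P ⧸ Z)) := hPq
  have hnt : Nontrivial N' := by
    rw [Subgroup.nontrivial_iff_ne_bot]
    intro h
    apply hne
    apply le_antisymm hZN
    intro g hg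
    have h1 : π g ∈ N' := Subgroup.mem_map_of_mem π hg
    rw [h, Subgroup.mem_bot] at h1
    exact (QuotientGroup.eq_one_iff g).1 h1
  have hdvd : 2 ∣ Nat.card N' := by
    rcases (hPq.to_subgroup N').card_eq_or_dvd with h | h
    · exfalso
      have := Finite.one_lt_card (α := N')
      omega
    · exact h
  obtain ⟨b, hb, hb1⟩ := hPc.exists_fixed_point_of_prime_dvd_card_of_fixed_point (α := N') hdvd
    (a := 1) (fun g => smul_one g)
  -- b is central
  have hcent : ∀ g : P ⧸ Z, g * (b : P ⧸ Z) * g⁻¹ = b := by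
    intro g
    have h1 := hb (ConjAct.toConjAct g)
    have h3 := congrArg (Subtype.val) h1
    exact h3
  obtain ⟨k, hk⟩ := (IsPGroup.iff_orderOf.1 hPq) (b : P ⧸ Z)
  have hbne : (b : P ⧸ Z) ≠ 1 := by
    intro h
    apply hb1
    ext
    exact h.symm
  have hk0 : k ≠ 0 := by
    rintro rfl
    rw [pow_zero, orderOf_eq_one_iff] at hk
    exact hbne hk
  obtain ⟨m, rfl⟩ : ∃ m, k = m + 1 := ⟨k - 1, by omega⟩
  set t' : P ⧸ Z := (b : P ⧸ Z) ^ (2 ^ m) with ht'
  have ht'1 : t' ≠ 1 := by
    intro h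
    have := orderOf_dvd_of_pow_eq_one h
    rw [hk] at this
    have := Nat.le_of_dvd (by positivity) this
    have h3 : 2 ^ m < 2 ^ (m + 1) := Nat.pow_lt_pow_right (by omega) (by omega)
    omega
  have ht'2 : t' * t' = 1 := by
    rw [ht', ← pow_add, ← two_mul, ← pow_succ', ← hk]
    exact pow_orderOf_eq_one _
  have ht'c : ∀ g : P ⧸ Z, g * t' * g⁻¹ = t' := by
    intro g
    rw [ht']
    have h1 := hcent g
    calc g * (b : P ⧸ Z) ^ (2 ^ m) * g⁻¹ = (g * (b : P ⧸ Z) * g⁻¹) ^ (2 ^ m) := by
          rw [conj_pow]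
      _ = _ := by rw [h1]
  have ht'N : t' ∈ N' := N'.pow_mem b.2 _
  obtain ⟨t, htN, htt'⟩ := ht'N
  refine ⟨t, htN, ?_, ?_, ?_⟩
  · intro h
    apply ht'1
    rw [← htt']
    exact (QuotientGroup.eq_one_iff t).2 h
  · rw [← QuotientGroup.eq_one_iff]
    show π (t * t) = 1
    rw [map_mul, htt', ht'2]
  · intro h
    rw [← QuotientGroup.eq_one_iff]
    show π (h * t * h⁻¹ * t⁻¹) = 1
    rw [map_mul, map_mul, map_mul, map_inv, map_inv, htt', ht'c, mul_inv_cancel]

end pgroup

end Pool.Agent.H41.SP
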