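import Pool.Agent.H41.SP.Three
import Pool.Agent.H41.SP.Fix

namespace Pool.Agent.H41.SP

open Module QuadraticMap

section card

variable {F : Type*} [Field F] [Finite F] {V : Type*} [AddCommGroup V] [Module F V]
variable {Q : QuadraticForm F V} [Module.Finite F V]

lemma spread_card {d : ℕ} {S : Set (Submodule F V)} (hS : IsSpread Q d S) :
    Nat.card S * (Nat.card F ^ d - 1) + 1 = Nat.card {x : V // Q x = 0} := by
  classical
  have hV : Finite V := Module.finite_of_finite F
  have hfS : Finite (Submodule F V) :=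
    Finite.of_injective (fun W : Submodule F V => (W : Set V)) SetLike.coe_injective
  have := Fintype.ofFinite S
  have := Fintype.ofFinite V
  let f : (Σ X : S, {x : (X : Submodule F V) // x ≠ 0}) → {x : V // x ≠ 0 ∧ Q x = 0} :=
    fun z => ⟨(z.2.1 : V), by simpa using z.2.2, hS.tot _ z.1.2 _ z.2.1.2⟩
  have hf : Function.Bijective f := by
    constructor
    · rintro ⟨⟨X, hX⟩, ⟨x, hx⟩, hx0⟩ ⟨⟨Y, hY⟩, ⟨y, hy⟩, hy0⟩ h
      have h1 : x = y := congrArg (fun z => (z.1 : V)) h
      subst h1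
      have h3 : X = Y := hS.uniq hX hY (by simpa using hx0) hx hy
      subst h3
      rfl
    · rintro ⟨x, hx0, hQx⟩
      obtain ⟨X, ⟨hX, hxX⟩, _⟩ := hS.cover x hx0 hQx
      exact ⟨⟨⟨X, hX⟩, ⟨⟨x, hxX⟩, by simpa using hx0⟩⟩, rfl⟩
  have h1 : Nat.card {x : V // x ≠ 0 ∧ Q x = 0} = Nat.card S * (Nat.card F ^ d - 1) := by
    rw [← Nat.card_congr (Equiv.ofBijective f hf), Nat.card_sigma]
    have : ∀ X : S, Nat.card {x : (X : Submodule F V) // x ≠ 0} = Nat.card F ^ d - 1 := by
      intro X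
      have hfin : Finite (X : Submodule F V) := Module.finite_of_finite F
      have := Fintype.ofFinite (X : Submodule F V)
      rw [← hS.dim _ X.2, ← card_sub, Nat.card_eq_fintype_card, Nat.card_eq_fintype_card,
        Fintype.card_subtype_compl, Fintype.card_subtype_eq]
    simp only [this]
    rw [Finset.sum_const, Finset.card_univ, smul_eq_mul, ← Nat.card_eq_fintype_card]
  rw [← h1]
  have e : Option {x : V // x ≠ 0 ∧ Q x = 0} ≃ {x : V // Q x = 0} := by
    refine ⟨fun o => match o with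
      | none => ⟨0, by simp⟩
      | some x => ⟨x.1, x.2.2⟩, fun x => if h : x.1 = 0 then none else some ⟨x.1, h, x.2⟩, ?_, ?_⟩
    · rintro (_ | ⟨x, hx, hQ⟩)
      · simp
      · simp [hx]
    · rintro ⟨x, hx⟩
      by_cases h : x = 0
      · subst h; simp
      · simp [h]
  rw [← Nat.card_congr e, Finite.card_option]

lemma one_lt_q : 1 < Nat.card F := Finite.one_lt_card

/-- size of a spread in the hyperbolic case -/
lemma spread_card_even (hQ : NonSing Q) {a : ℕ} (ha : 1 ≤ a) {S : Set (Submodule F V)}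
    (hS : IsSpread Q a S) (hne : S.Nonempty) (hd : finrank F V = 2 * a) :
    Nat.card S = Nat.card F ^ (a - 1) + 1 := by
  obtain ⟨X, hX⟩ := hne
  have h1 := count_even hQ (hS.tot X hX) (hS.dim X hX) hd
  have h3 := spread_card hS
  set q := Nat.card F with hq
  have hq1 : 1 < q := one_lt_q
  obtain ⟨b, rfl⟩ : ∃ b, a = b + 1 := ⟨a - 1, by omega⟩
  rw [← h3] at h1
  set s := Nat.card S
  simp only [Nat.add_sub_cancel]
  obtain ⟨m, hm⟩ : ∃ m, q ^ (b + 1) = m + 1 :=
    ⟨q ^ (b + 1) - 1, by have : 0 < q ^ (b + 1) := Nat.pow_pos (by omega); omega⟩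
  have hm0 : 0 < m := by
    have : 1 < q ^ (b + 1) := Nat.one_lt_pow (by omega) hq1
    omega
  have e1 : q ^ (2 * (b + 1)) = (m + 1) * (m + 1) := by rw [← hm]; ring
  have e2 : q ^ (b + 1 + 1) = q * (m + 1) := by rw [← hm]; ring
  have e3 : q * q ^ b = m + 1 := by rw [← hm]; ring
  rw [e1, e2, hm, Nat.add_sub_cancel] at h1
  -- q * (s * m + 1) + (m + 1) = q * (m + 1) + (m+1)^2
  have h4 : m * (q * s) = m * (q * (q ^ b + 1)) := by
    have : q * (q ^ b + 1) = m + 1 + q := by rw [mul_add, e3]; ring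
    rw [this]
    nlinarith [h1]
  have h5 := Nat.eq_of_mul_eq_mul_left hm0 h4
  exact Nat.eq_of_mul_eq_mul_left (by omega) h5

/-- size of a spread in the parabolic case -/
lemma spread_card_odd (hQ : NonSing Q) {a : ℕ} (ha : 1 ≤ a) {S : Set (Submodule F V)}
    (hS : IsSpread Q a S) (hne : S.Nonempty) (hd : finrank F V = 2 * a + 1) :
    Nat.card S = Nat.card F ^ a + 1 := by
  obtain ⟨X, hX⟩ := hne
  have h1 := count_odd hQ (hS.tot X hX) (hS.dim X hX) hd
  have h3 := spread_card hS
  set q := Nat.card F with hq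
  have hq1 : 1 < q := one_lt_q
  rw [h1] at h3
  set s := Nat.card S
  obtain ⟨m, hm⟩ : ∃ m, q ^ a = m + 1 :=
    ⟨q ^ a - 1, by have : 0 < q ^ a := Nat.pow_pos (by omega); omega⟩
  have hm0 : 0 < m := by
    have : 1 < q ^ a := Nat.one_lt_pow (by omega) hq1
    omega
  have e1 : q ^ (2 * a) = (m + 1) * (m + 1) := by rw [← hm]; ring
  rw [e1, hm, Nat.add_sub_cancel] at h3
  rw [hm]
  have h4 : m * s = m * (m + 1 + 1) := by nlinarith [h3]
  exact Nat.eq_of_mul_eq_mul_left hm0 h4

end card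

section split

variable {F : Type*} [Field F] {V : Type*} [AddCommGroup V] [Module F V]
variable {Q : QuadraticForm F V}

/-- An orthogonal splitting `V = E ⊕ E'` compatible with the part `T` of the spread `S`. -/
structure Compat (Q : QuadraticForm F V) (E E' : Submodule F V) (S T : Set (Submodule F V)) :
    Prop where
  compl : IsCompl E E'
  orth : ∀ x ∈ E, ∀ y ∈ E', polar Q x y = 0
  sub : T ⊆ S
  split : ∀ X ∈ T, ∀ x ∈ X, ∃ y ∈ X ⊓ E, ∃ z ∈ X ⊓ E', x = y + z
  mem : ∀ X ∈ S, ∀ x ∈ X, x ≠ 0 → (x ∈ E ∨ x ∈ E') → X ∈ T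

lemma Compat.symm {E E' : Submodule F V} {S T : Set (Submodule F V)} (h : Compat Q E E' S T) :
    Compat Q E' E S T where
  compl := h.compl.symm
  orth := fun x hx y hy => by rw [polar_comm]; exact h.orth y hy x hx
  sub := h.sub
  split := fun X hX x hx => by
    obtain ⟨y, hy, z, hz, rfl⟩ := h.split X hX x hx
    exact ⟨z, hz, y, hy, add_comm _ _⟩
  mem := fun X hX x hx h0 hor => h.mem X hX x hx h0 hor.symm

/-- traces of the members of `T` on the subspace `E` -/
def traceOn (E : Submodule F V) (T : Set (Submodule F V)) : Set (Submodule F E) :=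
  (fun X : Submodule F V => X.comap E.subtype) '' T

lemma polar_restrict (E : Submodule F V) (x y : E) :
    polar (Q.restrict E) x y = polar Q (x : V) (y : V) := rfl

lemma Compat.nonsing {E E' : Submodule F V} {S T : Set (Submodule F V)}
    (h : Compat Q E E' S T) (hQ : NonSing Q) : NonSing (Q.restrict E) := by
  intro x hx
  ext
  apply hQ
  intro v
  have hv : v ∈ E ⊔ E' := by rw [h.compl.sup_eq_top]; trivial
  obtain ⟨y, hy, z, hz, rfl⟩ := Submodule.mem_sup.1 hv
  rw [polar_add_right, h.orth _ x.2 _ hz, add_zero]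
  exact hx ⟨y, hy⟩

variable [Module.Finite F V]

lemma finrank_trace (E X : Submodule F V) :
    finrank F (X.comap E.subtype) = finrank F (X ⊓ E : Submodule F V) := by
  rw [← Submodule.finrank_map_subtype_eq, Submodule.map_comap_subtype, inf_comm]

lemma Compat.finrank_add {E E' : Submodule F V} {S T : Set (Submodule F V)}
    (h : Compat Q E E' S T) {X : Submodule F V} (hX : X ∈ T) :
    finrank F (X.comap E.subtype) + finrank F (X.comap E'.subtype) = finrank F X := by
  rw [finrank_trace, finrank_trace, ← Submodule.finrank_sup_add_finrank_inf_eq]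
  have h1 : X ⊓ E ⊔ X ⊓ E' = X := by
    apply le_antisymm
    · exact sup_le inf_le_left inf_le_left
    · intro x hx
      obtain ⟨y, hy, z, hz, rfl⟩ := h.split X hX x hx
      exact Submodule.add_mem_sup hy hz
  have h3 : (X ⊓ E) ⊓ (X ⊓ E') = ⊥ := by
    rw [eq_bot_iff]
    intro x hx
    rw [← h.compl.inf_eq_bot]
    exact ⟨hx.1.2, hx.2.2⟩
  rw [h1, h3, finrank_bot, add_zero]

lemma Compat.spread {E E' : Submodule F V} {S T : Set (Submodule F V)}
    (h : Compat Q E E' S T) {d : ℕ} (hS : IsSpread Q d S) {a : ℕ}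
    (ha : ∀ X ∈ T, finrank F (X.comap E.subtype) = a) : IsSpread (Q.restrict E) a (traceOn E T) where
  tot := by
    rintro _ ⟨X, hX, rfl⟩ x hx
    exact hS.tot X (h.sub hX) _ hx
  dim := by
    rintro _ ⟨X, hX, rfl⟩
    exact ha X hX
  cover := by
    intro x hx0 hQx
    have hx0' : (x : V) ≠ 0 := by simpa using hx0
    obtain ⟨X, ⟨hX, hxX⟩, huniq⟩ := hS.cover x hx0' hQx
    refine ⟨X.comap E.subtype, ⟨⟨X, h.mem X hX _ hxX hx0' (Or.inl x.2), rfl⟩, hxX⟩, ?_⟩
    rintro _ ⟨⟨Y, hY, rfl⟩, hxY⟩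
    have : Y = X := huniq Y ⟨h.sub hY, hxY⟩
    rw [this]

lemma Compat.card_trace {E E' : Submodule F V} {S T : Set (Submodule F V)}
    (h : Compat Q E E' S T) {d : ℕ} (hS : IsSpread Q d S) {a : ℕ} (ha1 : 1 ≤ a)
    (ha : ∀ X ∈ T, finrank F (X.comap E.subtype) = a) : Nat.card (traceOn E T) = Nat.card T := by
  symm
  apply Nat.card_congr
  refine Equiv.Set.imageOfInjOn (fun X : Submodule F V => X.comap E.subtype) T ?_
  intro X hX Y hY hXY
  have h1 : (X.comap E.subtype) ≠ ⊥ := by
    intro h0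
    have := ha X hX
    rw [h0, finrank_bot] at this
    omega
  obtain ⟨x, hx, hx0⟩ := Submodule.exists_mem_ne_zero_of_ne_bot h1
  have hxY : x ∈ Y.comap E.subtype := by
    have : X.comap E.subtype = Y.comap E.subtype := hXY
    rw [← this]; exact hx
  exact hS.uniq (h.sub hX) (h.sub hY) (x := (x : V)) (by simpa using hx0) hx hxY

variable [Finite F]

/-- The core of the involution argument, with the even dimensional part named. -/
lemma Compat.core_even (h2 : (2 : F) ≠ 0) (hQ : NonSing Q) {n : ℕ} (hn : 1 ≤ n)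
    {E E' : Submodule F V} {S T : Set (Submodule F V)} (h : Compat Q E E' S T)
    (hS : IsSpread Q (2 * n + 1) S) (hT : T.Nonempty) {a b : ℕ} (hab : a + b = 2 * n + 1)
    (ha1 : 1 ≤ a) (hE : finrank F E = 2 * a) (hE' : finrank F E' = 2 * b + 1) :
    Odd n ∧ a = n + 1 ∧ b = n ∧ (∀ X ∈ T, finrank F (X.comap E.subtype) = a) ∧
      (∀ X ∈ T, finrank F (X.comap E'.subtype) = b) := by
  have hnsE := h.nonsing hQ
  have hnsE' := h.symm.nonsing hQ
  have hdims : ∀ X ∈ T, finrank F (X.comap E.subtype) = a ∧ finrank F (X.comap E'.subtype) = b := by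
    intro X hX
    have h1 := h.finrank_add hX
    rw [hS.dim X (h.sub hX)] at h1
    have h3 := ts_dim hnsE (W := X.comap E.subtype) (fun x hx => hS.tot X (h.sub hX) _ hx)
    have h4 := ts_dim hnsE' (W := X.comap E'.subtype) (fun x hx => hS.tot X (h.sub hX) _ hx)
    omega
  have hda := fun X hX => (hdims X hX).1
  have hdb := fun X hX => (hdims X hX).2
  have hSE := h.spread hS hda
  have hSE' := h.symm.spread hS hdb
  have hneE : (traceOn E T).Nonempty := hT.image _
  have hneE' : (traceOn E' T).Nonempty := hT.image _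
  have hcE := spread_card_even hnsE ha1 hSE hneE hE
  have hq1 : 1 < Nat.card F := one_lt_q
  have hq3 : 2 ≤ Nat.card F := hq1
  -- three members
  have heven : 2 ≤ a → Even a := by
    intro ha2
    have hge : 3 ≤ Nat.card (traceOn E T) := by
      rw [hcE]
      have : Nat.card F ^ 1 ≤ Nat.card F ^ (a - 1) := Nat.pow_le_pow_right (by omega) (by omega)
      rw [pow_one] at this
      omega
    have hfinE : Finite E := Module.finite_of_finite F
    have hfS : Finite (Submodule F E) :=
      Finite.of_injective (fun W : Submodule F E => (W : Set E)) SetLike.coe_injective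
    have hcard : 2 < (traceOn E T).ncard := by
      rw [← Nat.card_coe_set_eq]; omega
    obtain ⟨A, B, C, hA, hB, hC, hABne, hACne, hBCne⟩ := (Set.two_lt_ncard_iff).1 hcard
    have hdisj : ∀ A ∈ traceOn E T, ∀ B ∈ traceOn E T, A ≠ B → A ⊓ B = ⊥ := by
      intro A hA B hB hne
      rw [eq_bot_iff]
      intro x hx
      rw [Submodule.mem_bot]
      by_contra hx0
      exact hne (hSE.uniq hA hB hx0 hx.1 hx.2)
    exact three_disjoint h2 hnsE (hSE.tot A hA) (hSE.tot B hB) (hSE.tot C hC) hE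
      (hSE.dim A hA) (hSE.dim B hB) (hSE.dim C hC) (hdisj A hA B hB hABne)
      (hdisj A hA C hC hACne) (hdisj B hB C hC hBCne)
  have hb0 : 1 ≤ b := by
    by_contra hb
    have hb' : b = 0 := by omega
    have ha' : a = 2 * n + 1 := by omega
    have := heven (by omega)
    rw [ha'] at this
    rw [Nat.even_iff] at this
    omega
  have hcE' := spread_card_odd hnsE' hb0 hSE' hneE' hE'
  have e1 := h.card_trace hS ha1 hda
  have e2 := h.symm.card_trace hS hb0 hdb
  have e3 : Nat.card F ^ (a - 1) = Nat.card F ^ b := by omega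
  have e4 : a - 1 = b := Nat.pow_right_injective hq1 e3
  have hbn : b = n := by omega
  have han : a = n + 1 := by omega
  refine ⟨?_, han, hbn, hda, hdb⟩
  have h5 := heven (by omega)
  rw [han, Nat.even_add_one, Nat.not_even_iff_odd] at h5
  exact h5

/-- The involution theorem: an orthogonal splitting compatible with a spread. -/
theorem Compat.core (h2 : (2 : F) ≠ 0) (hQ : NonSing Q) {n : ℕ} (hn : 1 ≤ n)
    (hV : finrank F V = 4 * n + 3) {E E' : Submodule F V} {S T : Set (Submodule F V)}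
    (h : Compat Q E E' S T) (hS : IsSpread Q (2 * n + 1) S) (hE : E ≠ ⊥) (hE' : E' ≠ ⊥) :
    Odd n ∧ T.Nonempty ∧
      ((finrank F E = 2 * n + 2 ∧ finrank F E' = 2 * n + 1 ∧
        IsSpread (Q.restrict E) (n + 1) (traceOn E T) ∧
        IsSpread (Q.restrict E') n (traceOn E' T)) ∨
      (finrank F E = 2 * n + 1 ∧ finrank F E' = 2 * n + 2 ∧
        IsSpread (Q.restrict E) n (traceOn E T) ∧
        IsSpread (Q.restrict E') (n + 1) (traceOn E' T))) := by
  have hsum : finrank F E + finrank F E' = 4 * n + 3 := by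
    rw [← hV, Submodule.finrank_add_eq_of_isCompl h.compl]
  have hpos : 1 ≤ finrank F E := by
    rw [Nat.one_le_iff_ne_zero]
    intro h0
    exact hE (Submodule.finrank_eq_zero.1 h0)
  have hpos' : 1 ≤ finrank F E' := by
    rw [Nat.one_le_iff_ne_zero]
    intro h0
    exact hE' (Submodule.finrank_eq_zero.1 h0)
  -- T nonempty
  have hT : T.Nonempty := by
    rcases le_or_gt 3 (finrank F E) with h3 | h3
    · obtain ⟨x, hx0, hQx⟩ := exists_singular h2 (Q.restrict E) h3
      have hx0' : (x : V) ≠ 0 := by simpa using hx0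
      obtain ⟨X, ⟨hX, hxX⟩, _⟩ := hS.cover x hx0' hQx
      exact ⟨X, h.mem X hX _ hxX hx0' (Or.inl x.2)⟩
    · have h4 : 3 ≤ finrank F E' := by omega
      obtain ⟨x, hx0, hQx⟩ := exists_singular h2 (Q.restrict E') h4
      have hx0' : (x : V) ≠ 0 := by simpa using hx0
      obtain ⟨X, ⟨hX, hxX⟩, _⟩ := hS.cover x hx0' hQx
      exact ⟨X, h.mem X hX _ hxX hx0' (Or.inr x.2)⟩
  obtain ⟨X, hX⟩ := hT
  have hT : T.Nonempty := ⟨X, hX⟩
  have h1 := h.finrank_add hX
  rw [hS.dim X (h.sub hX)] at h1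
  have h3 := ts_dim (h.nonsing hQ) (W := X.comap E.subtype)
    (fun x hx => hS.tot X (h.sub hX) _ hx)
  have h4 := ts_dim (h.symm.nonsing hQ) (W := X.comap E'.subtype)
    (fun x hx => hS.tot X (h.sub hX) _ hx)
  set a := finrank F (X.comap E.subtype)
  set b := finrank F (X.comap E'.subtype)
  rcases (by omega : (finrank F E = 2 * a ∧ finrank F E' = 2 * b + 1) ∨
      (finrank F E = 2 * a + 1 ∧ finrank F E' = 2 * b)) with ⟨d1, d2⟩ | ⟨d1, d2⟩
  · obtain ⟨ho, ha, hb, hda, hdb⟩ := h.core_even h2 hQ hn hS hT h1 (by omega) d1 d2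
    refine ⟨ho, hT, Or.inl ⟨by omega, by omega, ?_, ?_⟩⟩
    · rw [← ha]; exact h.spread hS hda
    · rw [← hb]; exact h.symm.spread hS hdb
  · obtain ⟨ho, ha, hb, hda, hdb⟩ := h.symm.core_even h2 hQ hn hS hT (by omega : b + a = 2 * n + 1)
      (by omega) d2 d1
    refine ⟨ho, hT, Or.inr ⟨by omega, by omega, ?_, ?_⟩⟩
    · rw [← hb]; exact h.spread hS hdb
    · rw [← ha]; exact h.symm.spread hS hda

end split

end Pool.Agent.H41.SP
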