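import Pool.Agent.H41.SP.Grp

namespace Pool.Agent.H41.SP

open Module QuadraticMap

section

variable {F : Type*} [Field F] {V : Type*} [AddCommGroup V] [Module F V]

/-- the eigenspace of `t` for the eigenvalue `ε` -/
def eig (t : V ≃ₗ[F] V) (ε : F) : Submodule F V := LinearMap.ker ((t : V →ₗ[F] V) - ε • LinearMap.id)

lemma mem_eig {t : V ≃ₗ[F] V} {ε : F} {x : V} : x ∈ eig t ε ↔ t x = ε • x := by
  unfold eig
  rw [LinearMap.mem_ker, LinearMap.sub_apply, sub_eq_zero]
  rfl

/-- the members of `S` fixed by `t` -/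
def fixedMembers (S : Set (Submodule F V)) (t : V ≃ₗ[F] V) : Set (Submodule F V) :=
  {X | X ∈ S ∧ X.map (t : V →ₗ[F] V) = X}

variable {Q : QuadraticForm F V}

lemma map_eq_iff (t : V ≃ₗ[F] V) (X : Submodule F V) :
    X.map (t : V →ₗ[F] V) = X ↔ Fixes (t.toAddEquiv) X := by
  constructor
  · intro h x
    constructor
    · intro hx
      have : t x ∈ X.map (t : V →ₗ[F] V) := Submodule.mem_map_of_mem hx
      rw [h] at this
      exact this
    · intro hx
      have h1 : t x ∈ X := hx
      rw [← h] at h1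
      obtain ⟨y, hy, hyx⟩ := h1
      have : y = x := t.injective hyx
      rwa [← this]
  · intro h
    ext x
    constructor
    · rintro ⟨y, hy, rfl⟩
      exact (h y).1 hy
    · intro hx
      refine ⟨t.symm x, ?_, by simp⟩
      show t.symm x ∈ X
      rw [h (t.symm x)]
      show t (t.symm x) ∈ X
      rwa [t.apply_symm_apply]

variable [Finite F] [Module.Finite F V]

/-- The involution theorem. -/
theorem invol (h2 : (2 : F) ≠ 0) (hQ : NonSing Q) {n : ℕ} (hn : 1 ≤ n)
    (hV : finrank F V = 4 * n + 3) {S : Set (Submodule F V)} (hS : IsSpread Q (2 * n + 1) S)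
    (t : V ≃ₗ[F] V) (μ : F) (hμ : ∀ x, Q (t x) = μ * Q x) (hpres : ∀ X ∈ S, X.map (t : V →ₗ[F] V) ∈ S)
    (l : F) (hl : ∀ x, t (t x) = l • x) (hns : ¬ ∃ c : F, ∀ x, t x = c • x) :
    Odd n ∧ ∃ ε : F, ε ≠ 0 ∧ ε ^ 2 = l ∧
      Compat Q (eig t ε) (eig t (-ε)) S (fixedMembers S t) ∧
      finrank F (eig t ε) = 2 * n + 1 ∧ finrank F (eig t (-ε)) = 2 * n + 2 ∧
      IsSpread (Q.restrict (eig t ε)) n (traceOn (eig t ε) (fixedMembers S t)) ∧
      IsSpread (Q.restrict (eig t (-ε))) (n + 1) (traceOn (eig t (-ε)) (fixedMembers S t)) ∧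
      (fixedMembers S t).Nonempty := by
  classical
  have hnt : Nontrivial V := by
    apply Module.nontrivial_of_finrank_pos (R := F); omega
  have hl0 : l ≠ 0 := by
    rintro rfl
    obtain ⟨v, hv⟩ := exists_ne (0 : V)
    have h1 := hl v
    rw [zero_smul] at h1
    exact hv (by simpa using h1)
  -- l is a square
  obtain ⟨ε, hε⟩ : ∃ ε : F, ε ^ 2 = l := by
    have h1 : LinearMap.det ((t : V →ₗ[F] V) ∘ₗ (t : V →ₗ[F] V)) = l ^ (4 * n + 3) := by
      have : (t : V →ₗ[F] V) ∘ₗ (t : V →ₗ[F] V) = l • LinearMap.id := by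
        ext x; exact hl x
      rw [this, LinearMap.det_smul, LinearMap.det_id, mul_one, hV]
    rw [LinearMap.det_comp] at h1
    set D := LinearMap.det (t : V →ₗ[F] V)
    refine ⟨D * (l ^ (2 * n + 1))⁻¹, ?_⟩
    have h3 : l ^ (4 * n + 3) = l * (l ^ (2 * n + 1)) ^ 2 := by ring
    have h4 : l ^ (2 * n + 1) ≠ 0 := pow_ne_zero _ hl0
    field_simp
    rw [pow_two, h1, h3]; ring
  have hε0 : ε ≠ 0 := by
    rintro rfl
    apply hl0; rw [← hε]; ring
  -- exists nonsingular vector
  obtain ⟨v, hv⟩ : ∃ v, Q v ≠ 0 := by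
    by_contra h
    push Not at h
    obtain ⟨v, hv⟩ := exists_ne (0 : V)
    apply hv
    apply hQ
    intro y
    unfold polar
    rw [h, h, h]; ring
  have hμ2 : μ ^ 2 = l ^ 2 := by
    have h1 : Q (t (t v)) = μ * (μ * Q v) := by rw [hμ, hμ]
    rw [hl, QuadraticMap.map_smul, smul_eq_mul] at h1
    apply mul_right_cancel₀ hv
    linear_combination -h1
  have hpolar : ∀ x y, polar Q (t x) (t y) = μ * polar Q x y := by
    intro x y
    unfold polar
    rw [← map_add, hμ, hμ, hμ]; ring
  set E := eig t ε with hE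
  set E' := eig t (-ε) with hE'
  have hcompl : IsCompl E E' := by
    refine IsCompl.of_eq ?_ ?_
    · rw [eq_bot_iff]
      intro x hx
      have h1 := mem_eig.1 hx.1
      have h3 := mem_eig.1 hx.2
      rw [h1, neg_smul] at h3
      have h4 : (2 * ε) • x = 0 := by
        rw [mul_smul, two_smul]
        nth_rewrite 2 [h3]
        abel
      rcases smul_eq_zero.1 h4 with h5 | h5
      · exact absurd h5 (mul_ne_zero h2 hε0)
      · exact h5
    · rw [eq_top_iff]
      intro x _
      have e1 : (2 * ε)⁻¹ • (ε • x + t x) ∈ E := by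
        rw [hE, mem_eig, map_smul, map_add, map_smul, hl, ← hε, smul_comm ε, pow_two, mul_smul,
          smul_add, smul_add]
        congr 1
        module
      have e2 : (2 * ε)⁻¹ • (ε • x - t x) ∈ E' := by
        rw [hE', mem_eig, map_smul, map_sub, map_smul, hl, ← hε, smul_comm (-ε), pow_two, mul_smul]
        congr 1
        module
      have e3 : x = (2 * ε)⁻¹ • (ε • x + t x) + (2 * ε)⁻¹ • (ε • x - t x) := by
        rw [← smul_add]
        have : ε • x + t x + (ε • x - t x) = (2 * ε) • x := by module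
        rw [this, inv_smul_smul₀ (mul_ne_zero h2 hε0)]
      rw [e3]
      exact Submodule.add_mem_sup e1 e2
  have hsum : finrank F E + finrank F E' = 4 * n + 3 := by
    rw [← hV, Submodule.finrank_add_eq_of_isCompl hcompl]
  have hμl : μ = l := by
    rcases sq_eq_sq_iff_eq_or_eq_neg.1 hμ2 with h | h
    · exact h
    · exfalso
      have hts : ∀ e : F, e ^ 2 = l → ∀ x ∈ eig t e, Q x = 0 := by
        intro e he x hx
        have h1 := hμ x
        rw [mem_eig.1 hx, QuadraticMap.map_smul, smul_eq_mul, h, ← pow_two, he] at h1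
        have h3 : 2 * (l * Q x) = 0 := by linear_combination h1
        rcases mul_eq_zero.1 h3 with h4 | h4
        · exact absurd h4 h2
        · rcases mul_eq_zero.1 h4 with h5 | h5
          · exact absurd h5 hl0
          · exact h5
      have d1 := ts_dim hQ (hts ε hε)
      have d2 := ts_dim hQ (hts (-ε) (by rw [neg_sq]; exact hε))
      rw [hV] at d1 d2
      rw [← hE] at d1
      rw [← hE'] at d2
      omega
  have hEbot : E ≠ ⊥ := by
    intro h
    have h1 : E' = ⊤ := by
      have := hcompl.sup_eq_top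
      rwa [h, bot_sup_eq] at this
    apply hns
    refine ⟨-ε, fun x => ?_⟩
    have : x ∈ E' := by rw [h1]; trivial
    exact mem_eig.1 this
  have hE'bot : E' ≠ ⊥ := by
    intro h
    have h1 : E = ⊤ := by
      have := hcompl.sup_eq_top
      rwa [h, sup_bot_eq] at this
    apply hns
    refine ⟨ε, fun x => ?_⟩
    have : x ∈ E := by rw [h1]; trivial
    exact mem_eig.1 this
  have hcompat : Compat Q E E' S (fixedMembers S t) := by
    refine ⟨hcompl, ?_, fun X hX => hX.1, ?_, ?_⟩
    · intro x hx y hy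
      have h1 := hpolar x y
      rw [mem_eig.1 hx, mem_eig.1 hy, polar_smul_left, polar_smul_right, smul_eq_mul, smul_eq_mul,
        hμl, ← hε] at h1
      have h3 : 2 * (ε ^ 2 * polar Q x y) = 0 := by linear_combination -h1
      rcases mul_eq_zero.1 h3 with h4 | h4
      · exact absurd h4 h2
      · rcases mul_eq_zero.1 h4 with h5 | h5
        · exact absurd h5 (pow_ne_zero _ hε0)
        · exact h5
    · intro X hX x hx
      have hfix := (map_eq_iff t X).1 hX.2
      have htx : t x ∈ X := (hfix x).1 hx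
      refine ⟨(2 * ε)⁻¹ • (ε • x + t x), ⟨?_, ?_⟩, (2 * ε)⁻¹ • (ε • x - t x), ⟨?_, ?_⟩, ?_⟩
      · exact X.smul_mem _ (X.add_mem (X.smul_mem _ hx) htx)
      · show _ ∈ E
        rw [hE, mem_eig, map_smul, map_add, map_smul, hl, ← hε, smul_comm ε, pow_two, mul_smul,
          smul_add, smul_add]
        congr 1
        module
      · exact X.smul_mem _ (X.sub_mem (X.smul_mem _ hx) htx)
      · show _ ∈ E'
        rw [hE', mem_eig, map_smul, map_sub, map_smul, hl, ← hε, smul_comm (-ε), pow_two, mul_smul]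
        congr 1
        module
      · rw [← smul_add]
        have : ε • x + t x + (ε • x - t x) = (2 * ε) • x := by module
        rw [this, inv_smul_smul₀ (mul_ne_zero h2 hε0)]
    · intro X hX x hx hx0 hor
      refine ⟨hX, ?_⟩
      rw [map_eq_iff]
      have hpr : Preserves S t.toAddEquiv := by
        intro Y hY
        refine ⟨Y.map (t : V →ₗ[F] V), hpres Y hY, fun y => ?_⟩
        constructor
        · intro hy
          exact Submodule.mem_map_of_mem (f := (t : V →ₗ[F] V)) hy
        · rintro ⟨z, hz, hzy⟩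
          have : z = y := t.injective hzy
          rwa [← this]
      apply fix_of_vec hS hpr hX hx hx0
      show t x ∈ X
      rcases hor with h | h
      · rw [mem_eig.1 h]; exact X.smul_mem _ hx
      · rw [mem_eig.1 h]; exact X.smul_mem _ hx
  obtain ⟨hodd, hne, hcase⟩ := hcompat.core h2 hQ hn hV hS hEbot hE'bot
  refine ⟨hodd, ?_⟩
  rcases hcase with ⟨d1, d2, s1, s2⟩ | ⟨d1, d2, s1, s2⟩
  · refine ⟨-ε, neg_ne_zero.2 hε0, by rw [neg_sq]; exact hε, ?_⟩
    rw [neg_neg]
    exact ⟨hcompat.symm, d2, d1, s2, s1, hne⟩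
  · exact ⟨ε, hε0, hε, hcompat, d1, d2, s1, s2, hne⟩

end

end Pool.Agent.H41.SP
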