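import Pool.Agent.H41.SP.TwoGroup

namespace Pool.Agent.H41.SP

open Module QuadraticMap

universe u

variable {F : Type*} [Field F] [Finite F] {V : Type u} [AddCommGroup V] [Module F V]
variable {Q : QuadraticForm F V} [Module.Finite F V]

/-- A spread of the parabolic quadric of rank `m ≥ 1` in odd characteristic has an even number of
members. -/
lemma even_card_spread (h2 : (2 : F) ≠ 0) (hQ : NonSing Q) {m : ℕ} (hm : 1 ≤ m)
    (hV : finrank F V = 2 * m + 1) {S : Set (Submodule F V)} (hS : IsSpread Q m S) :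
    Even (Nat.card S) := by
  obtain ⟨x, hx0, hQx⟩ := exists_singular h2 Q (by omega)
  obtain ⟨X, ⟨hX, _⟩, _⟩ := hS.cover x hx0 hQx
  rw [spread_card_odd hQ hm hS ⟨X, hX⟩ hV]
  have : Fintype F := Fintype.ofFinite F
  have hchar : ringChar F ≠ 2 := by
    intro h
    apply h2
    have := ringChar.Nat.cast_ringChar (R := F)
    rw [h] at this
    exact_mod_cast this
  have hodd : Odd (Nat.card F) := by
    rw [Nat.card_eq_fintype_card, Nat.odd_iff]
    exact FiniteField.odd_card_of_char_ne_two hchar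
  exact (hodd.pow).add_one

/-- `g` is (the permutation of `V` given by) a semisimilarity of `Q` preserving `S`. -/
def IsColl (Q : QuadraticForm F V) (S : Set (Submodule F V)) (g : Equiv.Perm V) : Prop :=
  ∃ f : V ≃+ V, (∀ x, g x = f x) ∧ IsSemiSim Q f ∧ Preserves S f

omit [Finite F] [Module.Finite F V] in
lemma isColl_one (S : Set (Submodule F V)) : IsColl Q S 1 :=
  ⟨AddEquiv.refl V, fun _ => rfl,
      ⟨RingEquiv.refl F, 1, one_ne_zero, fun _ _ => rfl, fun x => by simp⟩,
      fun X hX => ⟨X, hX, fun _ => Iff.rfl⟩⟩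

omit [Finite F] [Module.Finite F V] in
lemma IsColl.mul {S : Set (Submodule F V)} {g h : Equiv.Perm V} (hg : IsColl Q S g)
    (hh : IsColl Q S h) : IsColl Q S (g * h) := by
  obtain ⟨f, hf, ⟨σ, μ, hμ0, hσ, hμ⟩, hp⟩ := hg
  obtain ⟨f', hf', ⟨σ', μ', hμ0', hσ', hμ'⟩, hp'⟩ := hh
  refine ⟨f'.trans f, fun x => ?_, ⟨σ'.trans σ, μ * σ μ', ?_, ?_, ?_⟩, ?_⟩
  · rw [Equiv.Perm.mul_apply, hf', hf]; rfl
  · exact mul_ne_zero hμ0 (by rw [ne_eq, map_eq_zero]; exact hμ0')
  · intro c x
    show f (f' (c • x)) = σ (σ' c) • f (f' x)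
    rw [hσ', hσ]
  · intro x
    show Q (f (f' x)) = μ * σ μ' * σ (σ' (Q x))
    rw [hμ, hμ', map_mul]; ring
  · intro X hX
    obtain ⟨Y, hY, h1⟩ := hp' X hX
    obtain ⟨W, hW, h3⟩ := hp Y hY
    exact ⟨W, hW, fun x => (h1 x).trans (h3 _)⟩

/-- the group of all semisimilarities preserving `S`, as a subgroup of the permutations of `V` -/
def collGroup (Q : QuadraticForm F V) (S : Set (Submodule F V)) : Subgroup (Equiv.Perm V) where
  carrier := {g | IsColl Q S g}
  one_mem' := isColl_one S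
  mul_mem' := fun hg hh => hg.mul hh
  inv_mem' := by
    intro g hg
    have : Finite V := Module.finite_of_finite F
    have hpow : ∀ i : ℕ, IsColl Q S (g ^ i) := by
      intro i
      induction i with
      | zero => exact isColl_one S
      | succ i ih => rw [pow_succ]; exact ih.mul hg
    have h1 : g⁻¹ = g ^ (orderOf g - 1) := by
      rw [inv_eq_iff_mul_eq_one, ← pow_succ']
      have : 0 < orderOf g := orderOf_pos g
      rw [Nat.sub_add_cancel this, pow_orderOf_eq_one]
    show IsColl Q S g⁻¹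
    rw [h1]
    exact hpow _

lemma mem_collGroup {S : Set (Submodule F V)} {g : Equiv.Perm V} :
    g ∈ collGroup Q S ↔ IsColl Q S g := Iff.rfl

/-- 2-subgroups of the collineation group of a spread fix a member. -/
theorem two_subgroup_fix (h2 : (2 : F) ≠ 0) (hQ : NonSing Q) {n : ℕ} (hn : ∀ k : ℕ, n + 1 ≠ 2 ^ k)
    (hV : finrank F V = 4 * n + 3) {S : Set (Submodule F V)} (hS : IsSpread Q (2 * n + 1) S)
    {P : Type*} [Group P] [Finite P] (hP : IsPGroup 2 P) (φ : P →* Equiv.Perm V)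
    (hφ : ∀ g, IsColl Q S (φ g)) : ∃ X ∈ S, ∀ g, ∀ x, x ∈ X ↔ φ g x ∈ X := by
  choose f hf hs hp using hφ
  obtain ⟨X, hX, h⟩ := two_group_fix h2 hP n hn Q hQ hV S hS f
    (fun x => by rw [← hf, map_one]; rfl)
    (fun g h x => by rw [← hf, ← hf, ← hf, map_mul]; rfl) hs hp
  refine ⟨X, hX, fun g x => ?_⟩
  rw [hf]
  exact h g x

/-- the members of `S` that are images of `X` under elements of `G` -/
def memberOrbit (G : Subgroup (Equiv.Perm V)) (S : Set (Submodule F V)) (X : Submodule F V) :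
    Set (Submodule F V) :=
  {Y | Y ∈ S ∧ ∃ g ∈ G, ∀ x, x ∈ X ↔ g x ∈ Y}

open Pointwise in
/-- Every group of semisimilarities preserving the spread has an orbit of odd length. -/
theorem odd_orbit (h2 : (2 : F) ≠ 0) (hQ : NonSing Q) {n : ℕ} (hn : ∀ k : ℕ, n + 1 ≠ 2 ^ k)
    (hV : finrank F V = 4 * n + 3) {S : Set (Submodule F V)} (hS : IsSpread Q (2 * n + 1) S)
    (G : Subgroup (Equiv.Perm V)) (hG : ∀ g ∈ G, IsColl Q S g) :
    ∃ X ∈ S, Odd (memberOrbit G S X).ncard ∧ memberOrbit G S X ≠ S := by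
  classical
  have hVfin : Finite V := Module.finite_of_finite F
  have hfact : Fact (Nat.Prime 2) := ⟨Nat.prime_two⟩
  obtain ⟨P⟩ : Nonempty (Sylow 2 G) := inferInstance
  obtain ⟨X, hX, hfix⟩ := two_subgroup_fix h2 hQ hn hV hS (P := P) P.isPGroup'
    (G.subtype.comp P.toSubgroup.subtype) (fun g => hG _ (g : G).2)
  -- the orbit of X
  have horb : MulAction.orbit G (X : Set V) =
      (fun Y : Submodule F V => (Y : Set V)) '' (memberOrbit G S X) := by
    ext A
    constructor
    · rintro ⟨⟨g, hgG⟩, rfl⟩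
      obtain ⟨f, hf, hs, hp⟩ := hG g hgG
      obtain ⟨Y, hY, h⟩ := hp X hX
      refine ⟨Y, ⟨hY, g, hgG, fun x => by rw [hf]; exact h x⟩, ?_⟩
      ext y
      constructor
      · intro hy
        refine ⟨f.symm y, ?_, ?_⟩
        · show f.symm y ∈ X
          rw [h, f.apply_symm_apply]
          exact hy
        · show g (f.symm y) = y
          rw [hf, f.apply_symm_apply]
      · rintro ⟨x, hx, rfl⟩
        show g x ∈ Y
        rw [hf]
        exact (h x).1 hx
    · rintro ⟨Y, ⟨hY, g, hgG, h⟩, rfl⟩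
      refine ⟨⟨g, hgG⟩, ?_⟩
      ext y
      constructor
      · rintro ⟨x, hx, rfl⟩
        show g x ∈ Y
        exact (h x).1 hx
      · intro hy
        refine ⟨g.symm y, ?_, ?_⟩
        · show g.symm y ∈ X
          rw [h, g.apply_symm_apply]
          exact hy
        · show g (g.symm y) = y
          exact g.apply_symm_apply y
  have hcard : (MulAction.orbit G (X : Set V)).ncard = (memberOrbit G S X).ncard := by
    rw [horb, Set.ncard_image_of_injective _ SetLike.coe_injective]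
  have hidx := MulAction.index_stabilizer G (X : Set V)
  rw [hcard] at hidx
  have hPle : (P : Subgroup G) ≤ MulAction.stabilizer G (X : Set V) := by
    intro g hg
    rw [MulAction.mem_stabilizer_iff]
    have h1 := hfix ⟨g, hg⟩
    have h3 : ∀ x, x ∈ X ↔ (g : Equiv.Perm V) x ∈ X := h1
    ext y
    constructor
    · rintro ⟨x, hx, rfl⟩
      exact (h3 x).1 hx
    · intro hy
      refine ⟨(g : Equiv.Perm V).symm y, ?_, ?_⟩
      · show (g : Equiv.Perm V).symm y ∈ X
        rw [h3, Equiv.apply_symm_apply]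
        exact hy
      · show (g : Equiv.Perm V) ((g : Equiv.Perm V).symm y) = y
        exact Equiv.apply_symm_apply _ _
  have hdvd := Subgroup.index_dvd_of_le hPle
  rw [hidx] at hdvd
  have h5 : ¬ 2 ∣ (P : Subgroup G).index := P.not_dvd_index
  have hodd : Odd (memberOrbit G S X).ncard := by
    rw [← Nat.not_even_iff_odd]
    intro h
    exact h5 ((even_iff_two_dvd.1 h).trans hdvd)
  refine ⟨X, hX, hodd, ?_⟩
  intro hall
  have heven := even_card_spread h2 hQ (m := 2 * n + 1) (by omega) (by omega) hS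
  rw [hall, ← Nat.card_coe_set_eq, ← Nat.not_even_iff_odd] at hodd
  exact hodd heven

/-- For even `n` every linear similitude preserving the spread has odd order modulo scalars. -/
theorem odd_order (h2 : (2 : F) ≠ 0) (hQ : NonSing Q) {n : ℕ} (hn : 1 ≤ n) (hneven : Even n)
    (hV : finrank F V = 4 * n + 3) {S : Set (Submodule F V)} (hS : IsSpread Q (2 * n + 1) S)
    (g : V ≃ₗ[F] V) (μ : F) (hμ : ∀ x, Q (g x) = μ * Q x)
    (hpres : ∀ X ∈ S, X.map (g : V →ₗ[F] V) ∈ S) :
    ∃ k : ℕ, Odd k ∧ ∃ c : F, ∀ x, (g ^ k) x = c • x := by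
  classical
  have hVfin : Finite V := Module.finite_of_finite F
  have hfin : Finite (V ≃ₗ[F] V) := Finite.of_injective (fun f : V ≃ₗ[F] V => (f : V → V))
    DFunLike.coe_injective
  -- similitudes are closed under powers
  have hsim : ∀ i : ℕ, (∃ ν : F, ∀ x, Q ((g ^ i) x) = ν * Q x) ∧
      ∀ X ∈ S, X.map ((g ^ i : V ≃ₗ[F] V) : V →ₗ[F] V) ∈ S := by
    intro i
    induction i with
    | zero =>
      refine ⟨⟨1, fun x => by rw [pow_zero, one_mul]; rfl⟩, fun X hX => ?_⟩
      have : X.map ((g ^ 0 : V ≃ₗ[F] V) : V →ₗ[F] V) = X := by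
        rw [pow_zero]
        exact Submodule.map_id X
      rw [this]; exact hX
    | succ i ih =>
      obtain ⟨⟨ν, hν⟩, hS'⟩ := ih
      refine ⟨⟨μ * ν, fun x => ?_⟩, fun X hX => ?_⟩
      · rw [pow_succ']
        show Q (g ((g ^ i) x)) = _
        rw [hμ, hν]; ring
      · have h1 := hpres _ (hS' X hX)
        rw [← Submodule.map_comp] at h1
        have : ((g ^ (i + 1) : V ≃ₗ[F] V) : V →ₗ[F] V) =
            (g : V →ₗ[F] V) ∘ₗ ((g ^ i : V ≃ₗ[F] V) : V →ₗ[F] V) := by
          rw [pow_succ']; rfl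
        rw [this]; exact h1
  obtain ⟨a, k, hk, hak⟩ := Nat.exists_eq_two_pow_mul_odd (orderOf_pos g).ne'
  refine ⟨k, hk, ?_⟩
  by_contra hns
  have hex : ∃ j : ℕ, ∃ c : F, ∀ x, (g ^ (k * 2 ^ j)) x = c • x := by
    refine ⟨a, 1, fun x => ?_⟩
    rw [mul_comm, ← hak, pow_orderOf_eq_one, one_smul]
    rfl
  have hj := Nat.find_spec hex
  have hmin := fun m => Nat.find_min (m := m) hex
  set j := Nat.find hex
  have hj0 : j ≠ 0 := by
    intro h0
    rw [h0, pow_zero, mul_one] at hj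
    exact hns hj
  obtain ⟨i, hi⟩ : ∃ i, j = i + 1 := ⟨j - 1, by omega⟩
  have hnoti := hmin i (by omega)
  obtain ⟨c, hc⟩ := hj
  obtain ⟨⟨ν, hν⟩, hp⟩ := hsim (k * 2 ^ i)
  have := invol h2 hQ hn hV hS (g ^ (k * 2 ^ i)) ν hν hp c (fun x => by
    rw [← hc x, hi]
    show (g ^ (k * 2 ^ i) * g ^ (k * 2 ^ i)) x = _
    rw [← pow_add]
    congr 2
    ring) hnoti
  have h1 := this.1
  rw [← Nat.not_even_iff_odd] at h1
  exact h1 hneven

end Pool.Agent.H41.SP
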