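import Pool.Agent.H41.SP.Basic

namespace Pool.Agent.H41.SP

open Module QuadraticMap

variable {F : Type*} [Field F] {V : Type*} [AddCommGroup V] [Module F V]
variable {Q : QuadraticForm F V} [Module.Finite F V]

/-- a nondegenerate alternating form lives on an even dimensional space (char ≠ 2) -/
lemma even_of_alt {A : Type*} [AddCommGroup A] [Module F A] [Module.Finite F A]
    (h2 : (2 : F) ≠ 0) (ω : LinearMap.BilinForm F A) (halt : ∀ x, ω x x = 0)
    (hnd : ω.Nondegenerate) : Even (finrank F A) := by
  classical
  by_contra hodd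
  rw [Nat.not_even_iff_odd] at hodd
  have b : Basis (Fin (finrank F A)) F A := finBasis F A
  have hdet := (LinearMap.BilinForm.nondegenerate_iff_det_ne_zero (B := ω) b).1 hnd
  set M := LinearMap.BilinForm.toMatrix b ω with hM
  have hskew : M.transpose = -M := by
    ext i j
    rw [Matrix.transpose_apply, Matrix.neg_apply, hM, LinearMap.BilinForm.toMatrix_apply,
      LinearMap.BilinForm.toMatrix_apply]
    have h1 := halt (b i + b j)
    simp only [map_add, LinearMap.add_apply, halt, zero_add, add_zero] at h1
    linear_combination h1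
  have h3 : M.det = - M.det := by
    calc M.det = M.transpose.det := (Matrix.det_transpose M).symm
      _ = (-M).det := by rw [hskew]
      _ = (-1) ^ (Fintype.card (Fin (finrank F A))) * M.det := Matrix.det_neg M
      _ = - M.det := by rw [Fintype.card_fin, hodd.neg_one_pow]; ring
  have h4 : 2 * M.det = 0 := by linear_combination h3
  rcases mul_eq_zero.1 h4 with h | h
  · exact h2 h
  · exact hdet h

/-- three pairwise disjoint maximal totally singular subspaces of a hyperbolic space: the rank is
even -/
lemma three_disjoint (h2 : (2 : F) ≠ 0) (hQ : NonSing Q) {A B C : Submodule F V} {a : ℕ}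
    (hA : ∀ x ∈ A, Q x = 0) (hB : ∀ x ∈ B, Q x = 0) (hC : ∀ x ∈ C, Q x = 0)
    (hd : finrank F V = 2 * a) (dA : finrank F A = a) (dB : finrank F B = a)
    (dC : finrank F C = a) (hAB : A ⊓ B = ⊥) (hAC : A ⊓ C = ⊥) (hBC : B ⊓ C = ⊥) : Even a := by
  classical
  have hcompl : IsCompl A B := by
    refine IsCompl.of_eq hAB ?_
    apply Submodule.eq_top_of_finrank_eq
    have := Submodule.finrank_sup_add_finrank_inf_eq A B
    rw [hAB, finrank_bot] at this
    omega
  let e := Submodule.prodEquivOfIsCompl A B hcompl
  let α : V →ₗ[F] A := (LinearMap.fst F A B).comp e.symm.toLinearMap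
  let β : V →ₗ[F] B := (LinearMap.snd F A B).comp e.symm.toLinearMap
  have hsum : ∀ v : V, (α v : V) + (β v : V) = v := by
    intro v
    have h1 : e (e.symm v) = v := e.apply_symm_apply v
    rw [Submodule.coe_prodEquivOfIsCompl'] at h1
    exact h1
  have hαC : Function.Injective (α.comp C.subtype) := by
    rw [injective_iff_map_eq_zero]
    intro c hc
    have h1 : α (c : V) = 0 := hc
    have h3 := hsum (c : V)
    rw [h1] at h3
    have h4 : (c : V) ∈ B ⊓ C := by
      refine ⟨?_, c.2⟩
      rw [← h3]
      simpa using (β (c : V)).2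
    rw [hBC] at h4
    ext
    simpa using h4
  have hβC : ∀ c : C, β (c : V) = 0 → c = 0 := by
    intro c hc
    have h3 := hsum (c : V)
    rw [hc] at h3
    have h4 : (c : V) ∈ A ⊓ C := by
      refine ⟨?_, c.2⟩
      rw [← h3]
      simpa using (α (c : V)).2
    rw [hAC] at h4
    ext
    simpa using h4
  let f : C ≃ₗ[F] A := LinearEquiv.ofInjectiveOfFinrankEq (α.comp C.subtype) hαC (by rw [dA, dC])
  have hf : ∀ c : C, f c = α (c : V) := fun c => rfl
  -- the alternating form
  let g : A →ₗ[F] V := B.subtype.comp ((β.comp C.subtype).comp f.symm.toLinearMap)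
  let ω : LinearMap.BilinForm F A := (bf Q).compl₁₂ A.subtype g
  have hω : ∀ x y, ω x y = polar Q (x : V) (β ((f.symm y : C) : V) : V) := fun x y => rfl
  have halt : ∀ x, ω x x = 0 := by
    intro x
    rw [hω]
    set c := f.symm x with hc
    have h1 : α (c : V) = x := by rw [← hf, hc]; simp
    have h3 := hsum (c : V)
    rw [h1] at h3
    have h4 := hC (c : V) c.2
    rw [← h3, QuadraticMap.map_add Q, hA _ x.2, hB _ (β (c : V)).2] at h4
    simpa [h3] using h4
  have hskew : ∀ x y, ω x y = - ω y x := by
    intro x y
    have h1 := halt (x + y)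
    simp only [map_add, LinearMap.add_apply, halt, zero_add, add_zero] at h1
    linear_combination h1
  have key : ∀ y : A, (∀ x : A, ω x y = 0) → y = 0 := by
    intro y hy
    set c := f.symm y with hc
    have h1 : ∀ v : V, polar Q (β (c : V) : V) v = 0 := by
      intro v
      rw [← hsum v, polar_add_right]
      have h3 : polar Q (β (c : V) : V) (α v : V) = 0 := by
        rw [polar_comm]; exact hy (α v)
      have h4 : polar Q (β (c : V) : V) (β v : V) = 0 :=
        polar_eq_zero_of_ts hB (β (c : V)).2 (β v).2
      rw [h3, h4, add_zero]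
    have h3 := hQ _ h1
    have h4 : β (c : V) = 0 := by ext; exact h3
    have h5 : c = 0 := hβC c h4
    have h6 : f c = y := by rw [hc]; simp
    rw [h5, map_zero] at h6
    exact h6.symm
  have hnd : ω.Nondegenerate := by
    constructor
    · intro x hx
      apply key
      intro y
      rw [hskew, hx y, neg_zero]
    · intro y hy
      exact key y hy
  have := even_of_alt h2 ω halt hnd
  rwa [dA] at this

end Pool.Agent.H41.SP
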