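import Pool.Agent.H41.SP.Invol

namespace Pool.Agent.H41.SP

open Module QuadraticMap

universe u

/-- Every 2-group of semisimilarities preserving a spread of the parabolic quadric in vector space
dimension `4 n + 3` fixes a member, if `n + 1` is not a power of two. -/
theorem two_group_fix {F : Type*} [Field F] [Finite F] (h2 : (2 : F) ≠ 0) {P : Type*} [Group P]
    [Finite P] (hP : IsPGroup 2 P) : ∀ (n : ℕ), (∀ k : ℕ, n + 1 ≠ 2 ^ k) →
    ∀ {V : Type u} [AddCommGroup V] [Module F V] [Module.Finite F V] (Q : QuadraticForm F V)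
      (_ : NonSing Q) (_ : finrank F V = 4 * n + 3) (S : Set (Submodule F V))
      (_ : IsSpread Q (2 * n + 1) S) (ρ : P → V ≃+ V) (_ : ∀ x, ρ 1 x = x)
      (_ : ∀ g h x, ρ (g * h) x = ρ g (ρ h x)) (_ : ∀ g, IsSemiSim Q (ρ g))
      (_ : ∀ g, Preserves S (ρ g)), ∃ X ∈ S, ∀ g, Fixes (ρ g) X := by
  intro n
  induction n using Nat.strong_induction_on with
  | _ n ih =>
  intro hpow V _ _ _ Q hQ hV S hS ρ hone hmul hρ hpres
  classical
  have hn : 1 ≤ n := by
    by_contra h
    have : n = 0 := by omega
    exact hpow 0 (by rw [this]; rfl)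
  have hnt : Nontrivial V := by
    apply Module.nontrivial_of_finrank_pos (R := F); omega
  obtain ⟨v0, hv0⟩ := exists_ne (0 : V)
  choose σ μ hμ0 hσ hμ using hρ
  have hinv : ∀ g x, ρ g (ρ g⁻¹ x) = x := by
    intro g x
    rw [← hmul, mul_inv_cancel, hone]
  have hinv' : ∀ g x, ρ g⁻¹ (ρ g x) = x := by
    intro g x
    rw [← hmul, inv_mul_cancel, hone]
  have huniq : ∀ g (τ : F ≃+* F), (∀ (c : F) (x : V), ρ g (c • x) = τ c • ρ g x) → τ = σ g := by
    intro g τ hτ
    apply RingEquiv.ext
    intro c
    have h1 := hτ c v0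
    rw [hσ g] at h1
    have h3 : (σ g c - τ c) • ρ g v0 = 0 := by rw [sub_smul, h1, sub_self]
    rcases smul_eq_zero.1 h3 with h4 | h4
    · exact (sub_eq_zero.1 h4).symm
    · exact absurd ((ρ g).injective (h4.trans (map_zero (ρ g)).symm)) hv0
  let θ : P →* RingAut F :=
    { toFun := σ
      map_one' := by
        symm
        apply huniq 1 (1 : RingAut F)
        intro c x
        rw [hone, hone]; rfl
      map_mul' := by
        intro g h
        symm
        apply huniq (g * h) (σ g * σ h : RingAut F)
        intro c x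
        rw [hmul, hmul]
        show ρ g (ρ h (c • x)) = (σ g (σ h c)) • ρ g (ρ h x)
        rw [hσ h, hσ g] }
  have hθ : ∀ g, θ g = σ g := fun g => rfl
  by_cases hA : ∀ g, θ g = 1 → ∃ c : F, ∀ x, ρ g x = c • x
  · -- Case A: modulo scalars the group is cyclic, generated by a field-type element
    obtain ⟨⟨τ, c0, hc0⟩, hgen⟩ := IsCyclic.exists_generator (α := θ.range)
    obtain ⟨l, hl⟩ := hA (c0 ^ orderOf τ) (by
      rw [map_pow, hc0]; exact pow_orderOf_eq_one τ)
    have hiter : ∀ (i : ℕ) (x : V), (ρ c0)^[i] x = ρ (c0 ^ i) x := by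
      intro i
      induction i with
      | zero => intro x; rw [pow_zero, hone]; rfl
      | succ i ih => intro x; rw [Function.iterate_succ_apply', ih, pow_succ', hmul]
    have hτ : σ c0 = τ := hc0
    obtain ⟨x, hx0, ⟨c, hc⟩, hQx⟩ := exists_eigen (Q := Q) h2 (ρ c0) τ
      (fun c x => by rw [hσ c0, hτ]) (μ c0) (fun x => by rw [hμ c0, hτ]) l
      (fun x => by rw [hiter]; exact hl x) (by omega)
    obtain ⟨X, ⟨hX, hxX⟩, _⟩ := hS.cover x hx0 hQx
    refine ⟨X, hX, ?_⟩
    let St : Subgroup P :=
      { carrier := {g | Fixes (ρ g) X}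
        one_mem' := by intro y; rw [hone]
        mul_mem' := by
          intro g h hg hh y
          rw [hmul]
          exact (hh y).trans (hg _)
        inv_mem' := by
          intro g hg y
          have h1 := hg (ρ g⁻¹ y)
          rw [hinv] at h1
          exact h1.symm }
    have hSt : ∀ g, g ∈ St ↔ Fixes (ρ g) X := fun g => Iff.rfl
    have hc0St : c0 ∈ St := by
      rw [hSt]
      apply fix_of_vec hS (hpres c0) hX hxX hx0
      rw [hc]; exact X.smul_mem _ hxX
    have hker : ∀ g, θ g = 1 → g ∈ St := by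
      intro g hg
      obtain ⟨c, hc⟩ := hA g hg
      rw [hSt]
      apply fix_of_vec hS (hpres g) hX hxX hx0
      rw [hc]; exact X.smul_mem _ hxX
    intro g
    rw [← hSt]
    have h1 := hgen ⟨θ g, g, rfl⟩
    rw [Subgroup.mem_zpowers_iff] at h1
    obtain ⟨k, hk⟩ := h1
    have hk' : τ ^ k = θ g := congrArg Subtype.val hk
    have h3 : θ ((c0 ^ k)⁻¹ * g) = 1 := by
      rw [map_mul, map_inv, map_zpow, hc0, hk', inv_mul_cancel]
    have h4 := St.mul_mem (St.zpow_mem hc0St k) (hker _ h3)
    rwa [mul_inv_cancel_left] at h4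
  · -- Case B: an involution
    push Not at hA
    obtain ⟨g0, hg0, hg0'⟩ := hA
    let Z : Subgroup P :=
      { carrier := {g | ∃ c : F, ∀ x, ρ g x = c • x}
        one_mem' := ⟨1, fun x => by rw [hone, one_smul]⟩
        mul_mem' := by
          rintro g h ⟨c, hc⟩ ⟨d, hd⟩
          refine ⟨c * d, fun x => ?_⟩
          rw [hmul, hd, hc, smul_smul]
        inv_mem' := by
          rintro g ⟨c, hc⟩
          have hc0 : c ≠ 0 := by
            rintro rfl
            have := hc v0
            rw [zero_smul] at this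
            exact hv0 ((ρ g).injective (this.trans (map_zero (ρ g)).symm))
          refine ⟨c⁻¹, fun x => ?_⟩
          rw [eq_inv_smul_iff₀ hc0, ← hc, hinv] }
    have hZmem : ∀ g, g ∈ Z ↔ ∃ c : F, ∀ x, ρ g x = c • x := fun g => Iff.rfl
    have hZn : Z.Normal := by
      constructor
      rintro g ⟨c, hc⟩ h
      refine ⟨σ h c, fun x => ?_⟩
      rw [hmul, hmul, hc, hσ h, hinv]
    have hZN : Z ≤ θ.ker := by
      rintro g ⟨c, hc⟩
      rw [MonoidHom.mem_ker, hθ]
      symm
      apply huniq g (1 : RingAut F)
      intro d x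
      rw [hc, hc, smul_comm]; rfl
    have hne : Z ≠ θ.ker := by
      intro h
      have : g0 ∈ Z := by rw [h]; exact hg0
      obtain ⟨c, hc⟩ := this
      obtain ⟨x, hx⟩ := hg0' c
      exact hx (hc x)
    obtain ⟨t, htN, htZ, htt, htc⟩ := exists_central_invol hP Z θ.ker hZN hne
    have htσ : σ t = RingEquiv.refl F := htN
    let tl : V ≃ₗ[F] V :=
      { (ρ t) with
        map_smul' := fun c x => by
          show ρ t (c • x) = c • ρ t x
          rw [hσ t, htσ]; rfl }
    have htl : ∀ x, tl x = ρ t x := fun x => rfl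
    obtain ⟨l, hl⟩ := htt
    have hl' : ∀ x, tl (tl x) = l • x := by
      intro x
      rw [← hl x, hmul]; rfl
    have htμ : ∀ x, Q (tl x) = μ t * Q x := by
      intro x
      rw [htl, hμ t, htσ]; rfl
    have hpt : ∀ X ∈ S, X.map (tl : V →ₗ[F] V) ∈ S := by
      intro X hX
      obtain ⟨Y, hY, h⟩ := hpres t X hX
      have : X.map (tl : V →ₗ[F] V) = Y := by
        ext y
        constructor
        · rintro ⟨x, hx, rfl⟩
          exact (h x).1 hx
        · intro hy
          refine ⟨tl.symm y, ?_, by simp⟩
          show tl.symm y ∈ X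
          rw [h (tl.symm y), ← htl, tl.apply_symm_apply]
          exact hy
      rw [this]; exact hY
    obtain ⟨hodd, ε, hε0, hε2, hcompat, dE, dE', sE, sE', _⟩ := invol h2 hQ hn hV hS tl (μ t) htμ hpt l hl'
      (by
        rintro ⟨c, hc⟩
        exact htZ ⟨c, hc⟩)
    set E := eig tl ε with hE
    set E' := eig tl (-ε) with hE'
    set T := fixedMembers S tl with hT
    -- the group preserves E
    have hPE : ∀ h, ∀ x ∈ E, ρ h x ∈ E := by
      intro h
      obtain ⟨c, hc⟩ := htc h
      have hcomm : ∀ x, ρ h (tl x) = c • tl (ρ h x) := by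
        intro x
        have h1 := hc (ρ t (ρ h x))
        have h3 : ρ (h * t * h⁻¹ * t⁻¹) (ρ t (ρ h x)) = ρ h (ρ t x) := by
          rw [hmul, hmul, hmul, hinv', hinv']
        rw [h3] at h1
        exact h1
      have hc0 : c ≠ 0 := by
        rintro rfl
        have := hcomm v0
        rw [zero_smul] at this
        have h3 := (ρ h).injective (this.trans (map_zero (ρ h)).symm)
        exact hv0 (by simpa using h3)
      set e := c⁻¹ * σ h ε with he
      have hEx : ∀ x ∈ E, tl (ρ h x) = e • ρ h x := by
        intro x hx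
        have h1 := hcomm x
        rw [mem_eig.1 hx, hσ h] at h1
        rw [he, mul_smul, h1, inv_smul_smul₀ hc0]
      have hE'x : ∀ x ∈ E', tl (ρ h x) = (-e) • ρ h x := by
        intro x hx
        have h1 := hcomm x
        rw [mem_eig.1 hx, hσ h, map_neg] at h1
        rw [he, ← mul_neg, mul_smul, h1, inv_smul_smul₀ hc0]
      -- e ^ 2 = l
      have hEne : ∃ x ∈ E, x ≠ 0 := by
        apply Submodule.exists_mem_ne_zero_of_ne_bot
        intro h0
        rw [h0, finrank_bot] at dE
        omega
      obtain ⟨x1, hx1, hx10⟩ := hEne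
      have he2 : e ^ 2 = ε ^ 2 := by
        have h1 := hl' (ρ h x1)
        rw [hEx x1 hx1, map_smul, hEx x1 hx1, smul_smul, ← pow_two] at h1
        have h3 : (e ^ 2 - l) • ρ h x1 = 0 := by rw [sub_smul, h1, sub_self]
        rcases smul_eq_zero.1 h3 with h4 | h4
        · rw [hε2]; exact sub_eq_zero.1 h4
        · exact absurd ((ρ h).injective (h4.trans (map_zero (ρ h)).symm)) hx10
      rcases sq_eq_sq_iff_eq_or_eq_neg.1 he2 with h5 | h5
      · intro x hx
        rw [hE, mem_eig, hEx x hx, h5]
      · exfalso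
        -- maps E' into E
        have hmap : ∀ x ∈ E', ρ h x ∈ E := by
          intro x hx
          rw [hE, mem_eig, hE'x x hx, h5, neg_neg]
        have hfinE : Finite E := Module.finite_of_finite F
        have hfinE' : Finite E' := Module.finite_of_finite F
        have hle : Nat.card E' ≤ Nat.card E := by
          apply Nat.card_le_card_of_injective (fun x : E' => (⟨ρ h x, hmap x x.2⟩ : E))
          intro x y hxy
          have : ρ h (x : V) = ρ h (y : V) := congrArg Subtype.val hxy
          exact Subtype.ext ((ρ h).injective this)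
        rw [card_sub, card_sub, dE, dE'] at hle
        have hq1 : 1 < Nat.card F := one_lt_q
        have := Nat.pow_lt_pow_right hq1 (show 2 * n + 1 < 2 * n + 2 by omega)
        omega
    -- the restricted action
    let ρ1 : P → E ≃+ E := fun g =>
          { toFun := fun x => ⟨ρ g x, hPE g x x.2⟩
            invFun := fun x => ⟨ρ g⁻¹ x, hPE g⁻¹ x x.2⟩
            left_inv := fun x => by
              ext
              exact hinv' g x
            right_inv := fun x => by
              ext
              exact hinv g x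
            map_add' := fun x y => by
              ext
              show ρ g ((x : V) + y) = ρ g x + ρ g y
              rw [map_add] }
    have hρ1 : ∀ g (x : E), ((ρ1 g x : E) : V) = ρ g x := fun g x => rfl
    obtain ⟨n1, hn1⟩ := hodd
    have hIH := ih n1 (by omega) (by
      intro k hk
      apply hpow (k + 1)
      rw [pow_succ, ← hk]; omega) (Q.restrict E) (hcompat.nonsing hQ) (by rw [dE]; omega)
      (traceOn E T) (by
        have : n = 2 * n1 + 1 := by omega
        rw [← this]; exact sE) ρ1 (fun x => by ext; exact hone x)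
      (fun g h x => by ext; exact hmul g h x) (fun g => ⟨σ g, μ g, hμ0 g, fun c x => by
          ext
          show ρ g (c • (x : V)) = σ g c • ρ g x
          rw [hσ g], fun x => by
          show Q (ρ g x) = μ g * σ g (Q x)
          rw [hμ g]⟩) (by
        intro g X1 hX1
        obtain ⟨X, hX, rfl⟩ := hX1
        obtain ⟨Y, hY, hXY⟩ := hpres g X hX.1
        -- nonzero vector in the trace
        have hne1 : X.comap E.subtype ≠ ⊥ := by
          intro h0
          have : finrank F (X.comap E.subtype) = n := sE.dim _ ⟨X, hX, rfl⟩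
          rw [h0, finrank_bot] at this
          omega
        obtain ⟨x, hx, hx0⟩ := Submodule.exists_mem_ne_zero_of_ne_bot hne1
        have hx' : (x : V) ∈ X := hx
        have hgx : ρ g x ∈ Y := (hXY _).1 hx'
        have hgx0 : ρ g (x : V) ≠ 0 := by
          intro h0
          apply hx0
          ext
          exact (ρ g).injective (h0.trans (map_zero (ρ g)).symm)
        refine ⟨Y.comap E.subtype, ⟨Y, hcompat.mem Y hY _ hgx hgx0 (Or.inl (hPE g x x.2)), rfl⟩, ?_⟩
        intro y
        exact hXY y)
    obtain ⟨X1, ⟨X, hX, rfl⟩, hfix⟩ := hIH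
    refine ⟨X, hX.1, fun g => ?_⟩
    have hne1 : X.comap E.subtype ≠ ⊥ := by
      intro h0
      have : finrank F (X.comap E.subtype) = n := sE.dim _ ⟨X, hX, rfl⟩
      rw [h0, finrank_bot] at this
      omega
    obtain ⟨x, hx, hx0⟩ := Submodule.exists_mem_ne_zero_of_ne_bot hne1
    have hx' : (x : V) ∈ X := hx
    exact fix_of_vec hS (hpres g) hX.1 hx' (by simpa using hx0) ((hfix g x).1 hx)

end Pool.Agent.H41.SP
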